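import Pool.Agent.D0H4.Tr.Col2

/-!
# Combinations which are linear forms in logarithms modulo a finite dimensional space
-/

set_option autoImplicit false

namespace Pool.Agent.D0H4.Tr

open Module Finset
open Pool.Agent.W254.Ab (QA mem_QA)
open Pool.Agent.W254.PA (Hyp)
open Pool.Agent.TH160.TowP (range_le exists_coord V_mul)
open Pool.Agent.D0H4.Rk (vl vl_apply vl_inj greedy)

/-- if `∑ G_i ∑ λ_k x_{k i}` is in the space `L` modulo the span of the `ω_t`, and few of the `∑ G_i x_{k i}` are in `κ`,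
all are in `κ` -/
def Col3 (κ₀ κ C : Type*) [Field κ₀] [Field κ] [Field C] [Algebra κ₀ C] [Algebra κ C] (L : Submodule κ C)
    (s n m c : ℕ) (l : Fin s → C) : Prop :=
  ∀ (G : Fin n → C) (ω : Fin m → C), ∃ K : Finset (Fin s), K.card ≤ c ∧ ∀ x : Fin s → Fin n → κ₀,
    (∃ (a : Fin m → κ) (h : C), h ∈ L ∧
      ∑ i, G i * ∑ k, l k * algebraMap κ₀ C (x k i) = ∑ t, algebraMap κ C (a t) * ω t + h) →
    (∀ k ∈ K, ∃ c : κ, ∑ i, G i * algebraMap κ₀ C (x k i) = algebraMap κ C c) →
    ∀ k, ∃ c : κ, ∑ i, G i * algebraMap κ₀ C (x k i) = algebraMap κ C c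

variable {Ω : Type} [Field Ω] [CharZero Ω] {V₀ : Submodule (QA Ω) Ω}

/-- coordinates modulo the algebraic numbers -/
theorem exists_coord1 {I : Type*} [Fintype I] (a : I → Ω) :
    ∃ (d : ℕ) (e : Fin d → Ω) (M : I → Fin d → QA Ω) (r : I → QA Ω), d ≤ Fintype.card I ∧
      LinearIndependent (QA Ω) (Fin.cons 1 e : Fin (d + 1) → Ω) ∧ ∀ i, a i = ∑ q, (M i q : Ω) * e q + (r i : Ω) := by
  classical
  set N1 : Submodule (QA Ω) Ω := Submodule.span (QA Ω) {1} with hN1
  set A : Submodule (QA Ω) (Ω ⧸ N1) := Submodule.span (QA Ω) (Set.range (fun i => N1.mkQ (a i))) with hA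
  haveI : FiniteDimensional (QA Ω) A := FiniteDimensional.span_of_finite (QA Ω) (Set.finite_range _)
  let b := Module.finBasis (QA Ω) A
  choose e he using fun q => N1.mkQ_surjective (b q : Ω ⧸ N1)
  have hm : ∀ i, N1.mkQ (a i) ∈ A := fun i => Submodule.subset_span ⟨i, rfl⟩
  have hbli : LinearIndependent (QA Ω) (fun q => (b q : Ω ⧸ N1)) := b.linearIndependent.map' A.subtype A.ker_subtype
  have h1 : ∀ i, a i - ∑ q, b.repr ⟨_, hm i⟩ q • e q ∈ N1 := by
    intro i
    rw [← Submodule.Quotient.mk_eq_zero, ← Submodule.mkQ_apply, map_sub, map_sum]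
    simp only [map_smul, he]
    have h := b.sum_repr ⟨_, hm i⟩
    have h2 := congrArg (fun z : A => (z : Ω ⧸ N1)) h
    simp only [Submodule.coe_sum, Submodule.coe_smul] at h2
    rw [h2, sub_self]
  choose r hr using fun i => Submodule.mem_span_singleton.mp (h1 i)
  refine ⟨finrank (QA Ω) A, e, fun i q => b.repr ⟨_, hm i⟩ q, r, ?_, ?_, ?_⟩
  · exact finrank_range_le_card (fun i => N1.mkQ (a i))
  · rw [Fintype.linearIndependent_iff]
    intro g hg
    rw [Fin.sum_univ_succ] at hg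
    simp only [Fin.cons_zero, Fin.cons_succ] at hg
    have h3 : ∑ q, g q.succ • (b q : Ω ⧸ N1) = 0 := by
      have h4 := congrArg N1.mkQ hg
      rw [map_add, map_sum, map_zero] at h4
      have h5 : N1.mkQ (g 0 • (1 : Ω)) = 0 := by
        rw [Submodule.mkQ_apply, Submodule.Quotient.mk_eq_zero]
        exact N1.smul_mem _ (Submodule.mem_span_singleton_self 1)
      rw [h5, zero_add] at h4
      rw [← h4]
      exact sum_congr rfl (fun q _ => by rw [map_smul, he])
    have h6 := Fintype.linearIndependent_iff.mp hbli _ h3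
    intro i
    refine Fin.cases ?_ (fun q => h6 q) i
    simp only [h6, zero_smul, sum_const_zero, add_zero] at hg
    exact (smul_eq_zero.mp hg).resolve_right one_ne_zero
  · intro i
    have h2 := hr i
    rw [eq_sub_iff_add_eq, add_comm] at h2
    rw [← h2]
    congr 1
    rw [Algebra.smul_def, mul_one]
    rfl

theorem col3_alg (hV : Hyp V₀) (h1 : (1 : Ω) ∈ V₀) {n m s : ℕ} (l : Fin s → Ω) (hl : ∀ k, l k ∈ V₀)
    (hli : LinearIndependent (QA Ω) (Fin.cons 1 l : Fin (s + 1) → Ω)) :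
    Col3 (QA Ω) (QA Ω) Ω V₀ s n m ((n + m + 1) ^ 2) l := by
  classical
  intro G ω
  obtain ⟨d, e, M, r, hd, he, hM⟩ := exists_coord1 (Sum.elim G ω)
  rw [Fintype.card_sum, Fintype.card_fin, Fintype.card_fin] at hd
  set l' : Fin (s + 1) → Ω := Fin.cons 1 l with hl'
  have hl'V : ∀ k, l' k ∈ V₀ := by
    intro k
    refine Fin.cases ?_ (fun k => ?_) k
    · rw [hl', Fin.cons_zero]; exact h1
    · rw [hl', Fin.cons_succ]; exact hl k
  have hQV : ∀ z : QA Ω, (z : Ω) ∈ V₀ := by
    intro z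
    have := V₀.smul_mem z h1
    rwa [Algebra.smul_def, mul_one] at this
  set ev : (Fin (s + 1) → Fin d → QA Ω) →ₗ[QA Ω] Ω :=
    { toFun := fun z => ∑ q, e q * vl l' d z q
      map_add' := by
        intro z z'
        rw [map_add, ← sum_add_distrib]
        exact sum_congr rfl (fun q _ => by rw [Pi.add_apply, mul_add])
      map_smul' := by
        intro a z
        rw [map_smul, RingHom.id_apply, smul_sum]
        exact sum_congr rfl (fun q _ => by rw [Pi.smul_apply, mul_smul_comm]) } with hev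
  set Z := V₀.comap ev with hZ
  have hvlV : ∀ z q, vl l' d z q ∈ V₀ := by
    intro z q
    rw [vl_apply]
    refine V₀.sum_mem (fun k _ => ?_)
    rw [mul_comm]
    exact V_mul (mem_QA.mp (z k q).2) (hl'V k)
  have hZr : finrank (QA Ω) Z ≤ (n + m + 1) ^ 2 := by
    let b := Module.finBasis (QA Ω) Z
    set v : Fin (finrank (QA Ω) Z) → Fin (d + 1) → Ω := fun p =>
      Fin.cons (- ev (b p : Fin (s + 1) → Fin d → QA Ω)) (vl l' d (b p : Fin (s + 1) → Fin d → QA Ω)) with hv
    have hli2 : LinearIndependent (QA Ω) v := by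
      have h1 := b.linearIndependent.map' (vl l' d ∘ₗ Z.subtype) (by
        rw [LinearMap.ker_eq_bot']
        intro x hx
        exact Subtype.ext (vl_inj l' hli hx))
      refine LinearIndependent.of_comp (LinearMap.funLeft (QA Ω) Ω (Fin.succ : Fin d → Fin (d + 1))) ?_
      exact h1
    have h2 := range_le hV (Fin.cons 1 e : Fin (d + 1) → Ω) he v (fun p i => by
      refine Fin.cases ?_ (fun q => ?_) i
      · exact V₀.neg_mem (b p).2
      · exact hvlV _ q) (fun p => by
      rw [Fin.sum_univ_succ]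
      simp only [hv, Fin.cons_zero, Fin.cons_succ, one_mul]
      change - ev _ + ev _ = 0
      exact neg_add_cancel _)
    rw [LinearMap.finrank_range_of_inj (linearIndependent_iff_injective_fintypeLinearCombination.mp hli2),
      Module.finrank_fintype_fun_eq_card, Fintype.card_fin] at h2
    refine h2.trans ?_
    calc (d + 1) * (d + 1 - 1) ≤ (n + m + 1) * (n + m + 1) := Nat.mul_le_mul (by omega) (by omega)
      _ = (n + m + 1) ^ 2 := by ring
  set pr : (Fin (s + 1) → Fin d → QA Ω) →ₗ[QA Ω] (Fin s → Fin d → QA Ω) :=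
    LinearMap.pi (fun k => LinearMap.proj k.succ) with hpr
  obtain ⟨K, hK, hK2⟩ := greedy (fun k : Fin s =>
    (LinearMap.proj k : (Fin s → Fin d → QA Ω) →ₗ[QA Ω] (Fin d → QA Ω))) ((n + m + 1) ^ 2) (Z.map pr)
    ((Submodule.finrank_map_le pr Z).trans hZr) (fun z _ h => funext h)
  have hval : ∀ y : Fin n → QA Ω, ∑ i, G i * (y i : Ω) =
      ∑ q, (∑ i, M (Sum.inl i) q * y i) • e q + ((∑ i, r (Sum.inl i) * y i : QA Ω) : Ω) := by
    intro y
    have h1 : ∀ i, G i = ∑ q, (M (Sum.inl i) q : Ω) * e q + (r (Sum.inl i) : Ω) := fun i => hM (Sum.inl i)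
    simp only [h1, add_mul, sum_add_distrib, sum_mul, Finset.sum_smul]
    congr 1
    · rw [sum_comm]
      refine sum_congr rfl (fun q _ => sum_congr rfl (fun i _ => ?_))
      rw [Algebra.smul_def]
      change _ = ((M (Sum.inl i) q * y i : QA Ω) : Ω) * e q
      push_cast
      ring
    · push_cast
      rfl
  refine ⟨K, hK, fun x hx hxK => ?_⟩
  obtain ⟨a, h, hh, ha⟩ := hx
  set z : Fin (s + 1) → Fin d → QA Ω := Fin.cons (fun q => - ∑ t, M (Sum.inr t) q * a t)
    (fun k q => ∑ i, M (Sum.inl i) q * x k i) with hz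
  have hzs : ∀ k : Fin s, z k.succ = fun q => ∑ i, M (Sum.inl i) q * x k i := fun k => rfl
  have hz0 : z 0 = fun q => - ∑ t, M (Sum.inr t) q * a t := rfl
  have hzZ : z ∈ Z := by
    change ev z ∈ V₀
    have h1 : ev z = (∑ i, G i * ∑ k, l k * (x k i : Ω) - ∑ t, (a t : Ω) * ω t) -
        (∑ k, l k * ((∑ i, r (Sum.inl i) * x k i : QA Ω) : Ω) - ((∑ t, r (Sum.inr t) * a t : QA Ω) : Ω)) := by
      have h2 : ∀ q, vl l' d z q = ∑ k, l k * ∑ i, (M (Sum.inl i) q : Ω) * (x k i : Ω) -
          ∑ t, (M (Sum.inr t) q : Ω) * (a t : Ω) := by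
        intro q
        rw [vl_apply, Fin.sum_univ_succ]
        have h3 : l' 0 = 1 := rfl
        have h4 : ∀ k : Fin s, l' k.succ = l k := fun k => rfl
        rw [h3, one_mul, hz0]
        simp only [h4, hzs]
        push_cast
        ring
      have h5 : ∀ i, G i = ∑ q, (M (Sum.inl i) q : Ω) * e q + (r (Sum.inl i) : Ω) := fun i => hM (Sum.inl i)
      have h6 : ∀ t, ω t = ∑ q, (M (Sum.inr t) q : Ω) * e q + (r (Sum.inr t) : Ω) := fun t => hM (Sum.inr t)
      change ∑ q, e q * vl l' d z q = _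
      have h7 : ∑ i, G i * ∑ k, l k * (x k i : Ω) =
          ∑ q, e q * ∑ k, l k * ∑ i, (M (Sum.inl i) q : Ω) * (x k i : Ω) +
            ∑ k, l k * ∑ i, (r (Sum.inl i) : Ω) * (x k i : Ω) := by
        simp only [h5, add_mul, sum_add_distrib, mul_sum, sum_mul]
        congr 1
        · rw [sum_comm]
          rw [sum_comm (s := univ (α := Fin d))]
          refine sum_congr rfl (fun k _ => ?_)
          rw [sum_comm]
          refine sum_congr rfl (fun i _ => sum_congr rfl (fun q _ => ?_))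
          ring
        · rw [sum_comm]
          refine sum_congr rfl (fun k _ => sum_congr rfl (fun i _ => ?_))
          ring
      have h8 : ∑ t, (a t : Ω) * ω t = ∑ q, e q * ∑ t, (M (Sum.inr t) q : Ω) * (a t : Ω) +
          ∑ t, (r (Sum.inr t) : Ω) * (a t : Ω) := by
        simp only [h6, mul_add, sum_add_distrib, mul_sum]
        congr 1
        · rw [sum_comm]
          refine sum_congr rfl (fun q _ => sum_congr rfl (fun t _ => ?_))
          ring
        · refine sum_congr rfl (fun t _ => ?_)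
          ring
      rw [h7, h8]
      simp only [h2, mul_sub, sum_sub_distrib]
      push_cast
      ring
    rw [h1]
    refine V₀.sub_mem ?_ (V₀.sub_mem (V₀.sum_mem fun k _ => ?_) (hQV _))
    · rw [show ∑ i, G i * ∑ k, l k * (x k i : Ω) = ∑ t, (a t : Ω) * ω t + h from ha, add_sub_cancel_left]
      exact hh
    · rw [mul_comm]
      exact V_mul (mem_QA.mp (Subtype.prop _)) (hl k)
  have hgz : ∀ k : Fin s, (∃ c : QA Ω, ∑ i, G i * (x k i : Ω) = (c : Ω)) ↔ z k.succ = 0 := by
    intro k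
    rw [hzs]
    constructor
    · rintro ⟨c, hc⟩
      rw [hval] at hc
      have h9 : ∑ q : Fin (d + 1), (Fin.cons ((∑ i, r (Sum.inl i) * x k i) - c)
          (fun q => ∑ i, M (Sum.inl i) q * x k i) : Fin (d + 1) → QA Ω) q • (Fin.cons 1 e : Fin (d + 1) → Ω) q = 0 := by
        rw [Fin.sum_univ_succ]
        simp only [Fin.cons_zero, Fin.cons_succ]
        rw [Algebra.smul_def, mul_one]
        change (((∑ i, r (Sum.inl i) * x k i) - c : QA Ω) : Ω) + _ = 0
        push_cast at hc ⊢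
        rw [← hc]
        ring
      have h10 := Fintype.linearIndependent_iff.mp he _ h9
      funext q
      exact h10 q.succ
    · intro h0
      refine ⟨∑ i, r (Sum.inl i) * x k i, ?_⟩
      rw [hval]
      have h9 : ∀ q, ∑ i, M (Sum.inl i) q * x k i = 0 := fun q => congrFun h0 q
      simp only [h9, zero_smul, sum_const_zero, zero_add]
  have h7 := hK2 (pr z) ⟨z, hzZ, rfl⟩ (fun k hk => (hgz k).mp (hxK k hk))
  intro k
  exact (hgz k).mpr (congrFun h7 k)

/-- few further numbers -/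
theorem col3_more {κ₀ κ C : Type} [Field κ₀] [Field κ] [Field C] [Algebra κ₀ C] [Algebra κ C] {L : Submodule κ C}
    {s n m g c : ℕ} {l : Fin s → C} (h : Col3 κ₀ κ C L s n (m + g) c l) (γ : Fin g → C) :
    Col3 κ₀ κ C (L ⊔ Submodule.span κ (Set.range γ)) s n m c l := by
  intro G ω
  obtain ⟨K, hK, hK2⟩ := h G (Fin.append ω γ)
  refine ⟨K, hK, fun x hx hxK => hK2 x ?_ hxK⟩
  obtain ⟨a, h, hh, ha⟩ := hx
  obtain ⟨h', hh', u, hu, rfl⟩ := Submodule.mem_sup.mp hh
  obtain ⟨b, rfl⟩ := (Submodule.mem_span_range_iff_exists_fun κ).mp hu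
  refine ⟨Fin.append a b, h', hh', ?_⟩
  rw [ha, Fin.sum_univ_add]
  simp only [Fin.append_left, Fin.append_right, Algebra.smul_def]
  ring

/-- the rational version -/
theorem col3_rat {V₁ : Submodule (QA Ω) Ω} {n m s c : ℕ} {l : Fin s → Ω} (h : Col3 (QA Ω) (QA Ω) Ω V₁ s n m c l) :
    Col3 ℚ (QA Ω) Ω V₁ s n m c l := by
  intro G ω
  obtain ⟨K, hK, h⟩ := h G ω
  have hc : ∀ z : ℚ, algebraMap (QA Ω) Ω (algebraMap ℚ (QA Ω) z) = algebraMap ℚ Ω z := fun z =>
    (IsScalarTower.algebraMap_apply ℚ (QA Ω) Ω z).symm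
  refine ⟨K, hK, fun x hx hxK => ?_⟩
  have h1 := h (fun k i => algebraMap ℚ (QA Ω) (x k i)) (by simp only [hc]; exact hx)
    (fun k hk => by simp only [hc]; exact hxK k hk)
  simp only [hc] at h1
  exact h1

end Pool.Agent.D0H4.Tr
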