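import Pool.Agent.D0H4.Tr.Core3
import Pool.Agent.D0H4.Rk.Unif

/-!
# Transfer to ultraproducts, three fields
-/

set_option autoImplicit false

namespace Pool.Agent.D0H4.Tr

open Module Filter
open Pool.Agent.R350 (UP gr gr_eq gr_eq_zero gr_surj cst cst_apply algebraMap_gr gr_smul li_ev charZero_UP
  exists_ultra_gen mem_box support_box coeff_sum_mon support_sum_mon eq_sum_mon eval_U eval_box
  degreeOf_box count_mat)
open Pool.Agent.D0H4.Rk (ev_exists gr_sum li_evK pb chain)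

section

variable {ι : Type} (𝒰 : Ultrafilter ι)

theorem gr_comb {κ C : Type} [Field κ] [Field C] [Algebra κ C] {J : Type} (t : Finset J) (f : J → ι → C)
    (g : J → ι → κ) : ∑ j ∈ t, gr 𝒰 C (f j) * algebraMap (UP 𝒰 κ) (UP 𝒰 C) (gr 𝒰 κ (g j)) =
      gr 𝒰 C (fun u => ∑ j ∈ t, f j u * algebraMap κ C (g j u)) := by
  rw [← gr_sum]
  refine Finset.sum_congr rfl (fun j _ => ?_)
  rw [algebraMap_gr, ← map_mul]
  rfl

theorem gr_comb' {κ C : Type} [Field κ] [Field C] [Algebra κ C] {J : Type} (t : Finset J) (f : J → ι → C)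
    (g : J → ι → κ) : ∑ j ∈ t, algebraMap (UP 𝒰 κ) (UP 𝒰 C) (gr 𝒰 κ (g j)) * gr 𝒰 C (f j) =
      gr 𝒰 C (fun u => ∑ j ∈ t, algebraMap κ C (g j u) * f j u) := by
  rw [← gr_sum]
  refine Finset.sum_congr rfl (fun j _ => ?_)
  rw [algebraMap_gr, ← map_mul]
  rfl

/-- the property `Col2` of an ultraproduct -/
theorem col2_U {κ₀ κ C : Type} [Field κ₀] [Field κ] [Field C] [Algebra κ₀ C] [Algebra κ C] {s n m c : ℕ}
    (l : ι → Fin s → C) (h : ∀ t, Col2 κ₀ κ C s n m c (l t)) :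
    Col2 (UP 𝒰 κ₀) (UP 𝒰 κ) (UP 𝒰 C) s n m c (fun k => gr 𝒰 C (fun t => l t k)) := by
  classical
  intro G ω
  choose G' hG' using fun i => gr_surj 𝒰 (G i)
  choose ω' hω' using fun i => gr_surj 𝒰 (ω i)
  choose K hK hK2 using fun t => h t (fun i => G' i t) (fun i => ω' i t)
  obtain ⟨K₀, hK₀⟩ := ev_exists 𝒰 (J := Finset (Fin s)) (p := fun t j => K t = j)
    (Filter.Eventually.of_forall fun t => ⟨K t, rfl⟩)
  refine ⟨K₀, ?_, fun x hx hxK => ?_⟩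
  · obtain ⟨t, ht⟩ := hK₀.exists
    rw [← ht]
    exact hK t
  · obtain ⟨a, ha⟩ := hx
    choose x' hx' using fun k i => gr_surj 𝒰 (x k i)
    choose a' ha' using fun i => gr_surj 𝒰 (a i)
    have h1 : ∀ k, ∑ i, G i * algebraMap (UP 𝒰 κ₀) (UP 𝒰 C) (x k i) =
        gr 𝒰 C (fun t => ∑ i, G' i t * algebraMap κ₀ C (x' k i t)) := by
      intro k
      simp only [← hG', ← hx']
      exact gr_comb 𝒰 _ _ _
    have h2 : ∑ i, G i * ∑ k, gr 𝒰 C (fun t => l t k) * algebraMap (UP 𝒰 κ₀) (UP 𝒰 C) (x k i) =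
        gr 𝒰 C (fun t => ∑ i, G' i t * ∑ k, l t k * algebraMap κ₀ C (x' k i t)) := by
      rw [← gr_sum]
      refine Finset.sum_congr rfl (fun i _ => ?_)
      simp only [← hG', ← hx']
      rw [gr_comb, ← map_mul]
      rfl
    have h3 : ∑ t, algebraMap (UP 𝒰 κ) (UP 𝒰 C) (a t) * ω t =
        gr 𝒰 C (fun u => ∑ t, algebraMap κ C (a' t u) * ω' t u) := by
      simp only [← ha', ← hω']
      exact gr_comb' 𝒰 _ _ _
    rw [h2, h3, gr_eq] at ha
    have h4 : ∀ᶠ t in (𝒰 : Filter ι), ∀ k : K₀, ∑ i, G' i t * algebraMap κ₀ C (x' k i t) = 0 := by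
      rw [Filter.eventually_all]
      intro k
      rw [← gr_eq_zero, ← h1]
      exact hxK k k.2
    have h5 : ∀ᶠ t in (𝒰 : Filter ι), ∀ k, ∑ i, G' i t * algebraMap κ₀ C (x' k i t) = 0 := by
      refine ((ha.and h4).and hK₀).mono (fun t ht => ?_)
      obtain ⟨⟨h6, h7⟩, h8⟩ := ht
      exact hK2 t (fun k i => x' k i t) ⟨fun i => a' i t, h6⟩ (fun k hk => h7 ⟨k, by rw [← h8]; exact hk⟩)
    intro k
    rw [h1, gr_eq_zero]
    exact h5.mono fun t ht => ht k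

/-- extension of a derivation of the ultrapower -/
theorem ext_UP {κ C : Type} [Field κ] [Field C] [CharZero C] [Algebra κ C] (d : Derivation ℤ (UP 𝒰 κ) (UP 𝒰 κ))
    (hd : ∀ a : κ, d (cst 𝒰 κ a) = 0) : ∃ D : Derivation ℤ (UP 𝒰 C) (UP 𝒰 C),
      (∀ c, D (algebraMap (UP 𝒰 κ) (UP 𝒰 C) c) = algebraMap _ _ (d c)) ∧ ∀ z : C, D (cst 𝒰 C z) = 0 := by
  have hch2 : CharZero (UP 𝒰 C) := charZero_UP 𝒰
  obtain ⟨D, hD1, hD2⟩ := Pool.Agent.TH519.GL.exists_ext_der (K := κ) (C := C) (cst 𝒰 κ)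
    (algebraMap (UP 𝒰 κ) (UP 𝒰 C)) (cst 𝒰 C) (fun a => rfl) (by
      intro J s z c hz hsum m hm
      choose c' hc' using fun m => gr_surj 𝒰 (c m)
      have h1 : ∑ m ∈ s, algebraMap (UP 𝒰 κ) (UP 𝒰 C) (c m) * cst 𝒰 C (z m) =
          gr 𝒰 C (∑ m ∈ s, (fun t => c' m t • z m)) := by
        rw [map_sum]
        refine Finset.sum_congr rfl fun m _ => ?_
        rw [← Algebra.smul_def, ← hc' m, cst_apply, gr_smul]
      rw [h1, gr_eq_zero] at hsum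
      rw [← hc' m, gr_eq_zero]
      refine hsum.mono fun b hb => ?_
      rw [Finset.sum_apply] at hb
      exact linearIndependent_iff'.1 hz s (fun m => c' m b) hb m hm) d hd
  exact ⟨D, hD1, hD2⟩

/-- partial derivatives on the ultrapower, for a tower of three fields -/
theorem exists_der3 {κ₀ κ C : Type} [Field κ₀] [Field κ] [Field C] [CharZero κ₀] [CharZero κ] [CharZero C]
    [Algebra κ₀ κ] [Algebra κ₀ C] [Algebra κ C] [IsScalarTower κ₀ κ C] {M : ℕ} (G : Fin M → ι → κ₀)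
    (hgen : ∀ P : MvPolynomial (Fin M) κ₀, P ≠ 0 →
      ∀ᶠ t in (𝒰 : Filter ι), MvPolynomial.eval (fun m => G m t) P ≠ 0) (k : Fin M) :
    ∃ (D : Derivation ℤ (UP 𝒰 C) (UP 𝒰 C)) (d₀ : Derivation ℤ (UP 𝒰 κ₀) (UP 𝒰 κ₀)),
      (∀ c : UP 𝒰 κ₀, D (algebraMap _ _ c) = algebraMap _ _ (d₀ c)) ∧
      (∀ a : κ₀, d₀ (cst 𝒰 κ₀ a) = 0) ∧
      (∀ c : UP 𝒰 κ, ∃ c' : UP 𝒰 κ, D (algebraMap _ _ c) = algebraMap _ _ c') ∧
      (∀ z : C, D (cst 𝒰 C z) = 0) ∧
      ∀ m, d₀ (gr 𝒰 κ₀ (G m)) = if m = k then 1 else 0 := by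
  classical
  have hch1 : CharZero (UP 𝒰 κ₀) := charZero_UP 𝒰
  have hch2 : CharZero (UP 𝒰 C) := charZero_UP 𝒰
  have hinj : Function.Injective (MvPolynomial.eval₂Hom (cst 𝒰 κ₀) fun m => gr 𝒰 κ₀ (G m)) := by
    rw [injective_iff_map_eq_zero]
    intro Δ hΔ
    by_contra h0
    have h1 : MvPolynomial.eval₂Hom (cst 𝒰 κ₀) (fun m => gr 𝒰 κ₀ (G m)) =
        (gr 𝒰 κ₀).comp (RingHom.pi fun t : ι => MvPolynomial.eval fun m => G m t) := by
      apply MvPolynomial.ringHom_ext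
      · intro r
        rw [MvPolynomial.coe_eval₂Hom, MvPolynomial.eval₂_C]
        change gr 𝒰 κ₀ (fun _ => r) =
          gr 𝒰 κ₀ (fun t => MvPolynomial.eval (fun m => G m t) (MvPolynomial.C r))
        simp only [MvPolynomial.eval_C]
      · intro m
        rw [MvPolynomial.coe_eval₂Hom, MvPolynomial.eval₂_X]
        change gr 𝒰 κ₀ (G m) =
          gr 𝒰 κ₀ (fun t => MvPolynomial.eval (fun m => G m t) (MvPolynomial.X m))
        simp only [MvPolynomial.eval_X]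
    rw [h1, RingHom.comp_apply, gr_eq_zero] at hΔ
    obtain ⟨b, hb1, hb2⟩ := (hΔ.and (hgen Δ h0)).exists
    exact hb2 hb1
  obtain ⟨d, hd1, hd2⟩ := Pool.Agent.TH519.GL.exists_partial (cst 𝒰 κ₀) (fun m => gr 𝒰 κ₀ (G m)) hinj k
  obtain ⟨d', hd'1, hd'2⟩ := ext_UP 𝒰 (κ := κ₀) (C := κ) d hd1
  obtain ⟨D, hD1, hD2⟩ := ext_UP 𝒰 (κ := κ) (C := C) d' hd'2
  have htower : ∀ c : UP 𝒰 κ₀, algebraMap (UP 𝒰 κ₀) (UP 𝒰 C) c =
      algebraMap (UP 𝒰 κ) (UP 𝒰 C) (algebraMap (UP 𝒰 κ₀) (UP 𝒰 κ) c) := by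
    intro c
    obtain ⟨c, rfl⟩ := gr_surj 𝒰 c
    rw [algebraMap_gr, algebraMap_gr, algebraMap_gr]
    congr 1
    funext t
    exact IsScalarTower.algebraMap_apply κ₀ κ C _
  refine ⟨D, d, fun c => ?_, hd1, fun c => ⟨d' c, hD1 c⟩, hD2, hd2⟩
  rw [htower, hD1, hd'1, ← htower]

end

/-- the product rule for a polynomial with variable coefficients -/
theorem chain2 {R : Type*} [CommRing R] (D : Derivation ℤ R R) {n : ℕ} (y : Fin n → R)
    (B : Finset (Fin n →₀ ℕ)) (f : MvPolynomial (Fin n) R) (hf : f.support ⊆ B) :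
    D (MvPolynomial.eval y f) = ∑ γ ∈ B, (∏ i, y i ^ γ i) * D (f.coeff γ) +
      ∑ i, MvPolynomial.eval y (MvPolynomial.pderiv i f) * D (y i) := by
  classical
  have hmap : ∀ p : MvPolynomial (Fin n) ℤ, MvPolynomial.eval y (MvPolynomial.map (algebraMap ℤ R) p) =
      MvPolynomial.aeval y p := by
    intro p
    rw [MvPolynomial.eval_map]
    rfl
  have hmon : ∀ (γ : Fin n →₀ ℕ) (c : R), MvPolynomial.monomial γ c =
      MvPolynomial.C c * MvPolynomial.map (algebraMap ℤ R) (MvPolynomial.monomial γ 1) := by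
    intro γ c
    rw [MvPolynomial.map_monomial, MvPolynomial.C_mul_monomial, map_one, mul_one]
  have hprod : ∀ γ : Fin n →₀ ℕ, MvPolynomial.aeval y (MvPolynomial.monomial γ (1 : ℤ)) = ∏ i, y i ^ γ i := by
    intro γ
    rw [MvPolynomial.aeval_monomial, map_one, one_mul, Finsupp.prod_fintype _ _ (fun i => pow_zero _)]
  have h1 : ∀ (γ : Fin n →₀ ℕ) (c : R), D (MvPolynomial.eval y (MvPolynomial.monomial γ c)) =
      (∏ i, y i ^ γ i) * D c +
        ∑ i, MvPolynomial.eval y (MvPolynomial.pderiv i (MvPolynomial.monomial γ c)) * D (y i) := by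
    intro γ c
    have h2 := chain (B := ℤ) D (fun a => by
      rw [eq_intCast]; exact D.map_intCast a) y (MvPolynomial.monomial γ (1 : ℤ))
    rw [hmon, map_mul, MvPolynomial.eval_C, hmap, D.leibniz, h2, hprod, smul_eq_mul, smul_eq_mul, add_comm]
    congr 1
    rw [Finset.mul_sum]
    refine Finset.sum_congr rfl (fun i _ => ?_)
    rw [MvPolynomial.pderiv_C_mul, MvPolynomial.pderiv_map, map_mul, MvPolynomial.eval_C, hmap]
    ring
  have h3 := eq_sum_mon hf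
  have h4 : D (MvPolynomial.eval y (∑ γ ∈ B, MvPolynomial.monomial γ (f.coeff γ))) =
      ∑ γ ∈ B, (∏ i, y i ^ γ i) * D (f.coeff γ) +
      ∑ i, MvPolynomial.eval y (MvPolynomial.pderiv i (∑ γ ∈ B, MvPolynomial.monomial γ (f.coeff γ))) * D (y i) := by
    rw [map_sum, map_sum]
    simp only [h1, Finset.sum_add_distrib, map_sum, Finset.sum_mul]
    congr 1
    rw [Finset.sum_comm]
  rw [← h3] at h4
  exact h4

/-- all polynomials of the class which vanish at `y` vanish on `y + U`, `U` of dimension `f` and defined over `κ₀` -/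
def Good (κ₀ κ : Type) {C : Type} [Field κ₀] [Field κ] [Field C] [Algebra κ₀ C] [Algebra κ C] (D : ℕ) {m n : ℕ}
    (ω : Fin m → C) (f : ℕ) (y : Fin n → C) : Prop :=
  ∃ w : Fin f → Fin n → κ₀, LinearIndependent κ₀ w ∧ ∀ P ∈ Cl κ D (n := n) ω, MvPolynomial.eval y P = 0 →
    ∀ z : Fin f → C, MvPolynomial.eval (fun i => y i + ∑ a, z a * algebraMap κ₀ C (w a i)) P = 0

theorem notGood_U {ι : Type} (𝒰 : Ultrafilter ι) {κ₀ κ C : Type} [Field κ₀] [Field κ] [Field C] [CharZero C]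
    [Algebra κ₀ C] [Algebra κ C] {D m n f : ℕ} (ω : ι → Fin m → C) (y : ι → Fin n → C)
    (h : ∀ t, ¬ Good κ₀ κ D (ω t) f (y t)) :
    ¬ Good (UP 𝒰 κ₀) (UP 𝒰 κ) D (fun u => gr 𝒰 C (fun t => ω t u)) f (fun i => gr 𝒰 C (fun t => y t i)) := by
  classical
  rintro ⟨w, hw, hP⟩
  choose w' hw' using fun a i => gr_surj 𝒰 (w a i)
  have hwe : (fun a => fun i => gr 𝒰 κ₀ (w' a i)) = w := by
    funext a i
    exact hw' a i
  rw [← hwe] at hw
  have hli := li_evK (C := C) 𝒰 w' hw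
  have h1 : ∀ t : ι, ∃ (P : MvPolynomial (Fin n) C) (z : Fin f → C), P ∈ Cl κ D (n := n) (ω t) ∧
      MvPolynomial.eval (y t) P = 0 ∧ (LinearIndependent κ₀ (fun a => fun i => w' a i t) →
        MvPolynomial.eval (fun i => y t i + ∑ a, z a * algebraMap κ₀ C (w' a i t)) P ≠ 0) := by
    intro t
    by_cases ht : LinearIndependent κ₀ (fun a => fun i => w' a i t)
    · have h2 := h t
      by_contra hcon
      push Not at hcon
      refine h2 ⟨fun a i => w' a i t, ht, fun P hP0 hP1 z => ?_⟩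
      exact (hcon P z hP0 hP1).2
    · refine ⟨0, 0, ⟨fun i => by rw [MvPolynomial.degreeOf_zero]; exact Nat.zero_le _, fun γ => ⟨0, by simp⟩⟩,
        map_zero _, fun h' => absurd h' ht⟩
  choose P z hP1 hP2 hP3 using h1
  set PU : MvPolynomial (Fin n) (UP 𝒰 C) :=
    ∑ γ ∈ Pool.Agent.R350.box n D, MvPolynomial.monomial γ (gr 𝒰 C (fun t => (P t).coeff γ)) with hPU
  have hev : ∀ (v : Fin n → ι → C), MvPolynomial.eval (fun i => gr 𝒰 C (v i)) PU =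
      gr 𝒰 C (fun t => MvPolynomial.eval (fun i => v i t) (P t)) := by
    intro v
    rw [hPU, eval_U]
    congr 1
    funext t
    rw [← eq_sum_mon (support_box (hP1 t).1)]
  have hPUc : PU ∈ Cl (UP 𝒰 κ) D (n := n) (fun u => gr 𝒰 C (fun t => ω t u)) := by
    refine ⟨fun i => degreeOf_box (support_sum_mon _ _) i, fun γ => ?_⟩
    rw [hPU, coeff_sum_mon]
    split_ifs
    · choose a ha using fun t => (hP1 t).2 γ
      refine ⟨fun u => gr 𝒰 κ (fun t => a t u), ?_⟩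
      rw [gr_comb']
      congr 1
      funext t
      exact ha t
    · exact ⟨0, by simp⟩
  have h2 := hP PU hPUc (by
    rw [hev, gr_eq_zero]
    exact Filter.Eventually.of_forall hP2) (fun a => gr 𝒰 C (fun t => z t a))
  have h3 : (fun i => gr 𝒰 C (fun t => y t i) + ∑ a, gr 𝒰 C (fun t => z t a) *
      algebraMap (UP 𝒰 κ₀) (UP 𝒰 C) (w a i)) =
      fun i => gr 𝒰 C (fun t => y t i + ∑ a, z t a * algebraMap κ₀ C (w' a i t)) := by
    funext i
    simp only [← hw']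
    rw [gr_comb, ← map_add]
    rfl
  rw [h3, hev, gr_eq_zero] at h2
  obtain ⟨t, ht1, ht2⟩ := (h2.and hli).exists
  exact hP3 t ht2 ht1

/-- **Dimension, fixed data.** -/
theorem dim_fixed3 {κ₀ κ C : Type} [Field κ₀] [CharZero κ₀] [Field κ] [CharZero κ] [Field C] [CharZero C]
    [Algebra κ₀ κ] [Algebra κ₀ C] [Algebra κ C] [IsScalarTower κ₀ κ C] {s n m D c : ℕ} (l : Fin s → C)
    (hcol : Col2 κ₀ κ C s n (m * (D + 1) ^ n) c l) (β : Fin n → C) (ω : Fin m → C) {e S : ℕ}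
    (hS : s * e + n * (c * n) < S) (φ : Fin S → Fin s × Fin n → κ₀) :
    ∃ Δ : MvPolynomial (Fin S) κ₀, Δ ≠ 0 ∧ ∀ b : Fin s × Fin n → κ₀, ¬ Good κ₀ κ D ω (e + 1) (pb l β b) →
      MvPolynomial.eval (fun q => ∑ x, φ q x * b x) Δ = 0 := by
  classical
  by_contra hcon
  push Not at hcon
  let ι : Type := {b : Fin s × Fin n → κ₀ // ¬ Good κ₀ κ D ω (e + 1) (pb l β b)}
  obtain ⟨𝒰, hgen⟩ := exists_ultra_gen (ι := ι) (fun b (q : Fin S) => ∑ x, φ q x * b.1 x) (by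
    intro Q hQ
    obtain ⟨b, h1, h2⟩ := hcon Q hQ
    exact ⟨⟨b, h1⟩, h2⟩)
  have hch1 : CharZero (UP 𝒰 κ₀) := charZero_UP 𝒰
  have hch2 : CharZero (UP 𝒰 C) := charZero_UP 𝒰
  choose Dr d₀ hD1 hD1' hD2 hD3 hD4 using fun q => exists_der3 (κ₀ := κ₀) (κ := κ) (C := C) 𝒰
    (fun q (b : ι) => ∑ x, φ q x * b.1 x) hgen q
  refine notGood_U 𝒰 (κ₀ := κ₀) (κ := κ) (D := D) (f := e + 1) (fun _ : ι => ω) (fun b : ι => pb l β b.1)
    (fun b => b.2) ?_
  set x : Fin S → Fin s → Fin n → UP 𝒰 κ₀ := fun q k i => d₀ q (gr 𝒰 κ₀ (fun b : ι => b.1 (k, i))) with hx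
  set T : Submodule (UP 𝒰 κ₀) (Fin s → Fin n → UP 𝒰 κ₀) := Submodule.span _ (Set.range x) with hT
  have hxli : LinearIndependent (UP 𝒰 κ₀) x := by
    rw [Fintype.linearIndependent_iff]
    intro g hg q'
    have h1 : ∑ p : Fin s × Fin n, cst 𝒰 κ₀ (φ q' p) * (∑ q, g q • x q) p.1 p.2 = 0 := by
      rw [hg]
      simp
    have h2 : ∑ p : Fin s × Fin n, cst 𝒰 κ₀ (φ q' p) * (∑ q, g q • x q) p.1 p.2 =
        ∑ q, g q * d₀ q (gr 𝒰 κ₀ (fun b : ι => ∑ x, φ q' x * b.1 x)) := by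
      have h3 : ∀ q, d₀ q (gr 𝒰 κ₀ (fun b : ι => ∑ x, φ q' x * b.1 x)) =
          ∑ p : Fin s × Fin n, cst 𝒰 κ₀ (φ q' p) * x q p.1 p.2 := by
        intro q
        rw [← gr_sum 𝒰 Finset.univ (fun (x : Fin s × Fin n) (b : ι) => φ q' x * b.1 x), map_sum]
        refine Finset.sum_congr rfl (fun p _ => ?_)
        have h4 : gr 𝒰 κ₀ (fun b : ι => φ q' p * b.1 p) = cst 𝒰 κ₀ (φ q' p) * gr 𝒰 κ₀ (fun b : ι => b.1 p) := by
          rw [cst_apply, ← map_mul]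
          rfl
        rw [h4, (d₀ q).leibniz, hD1', smul_zero, add_zero, smul_eq_mul]
      simp only [h3, Finset.sum_apply, Pi.smul_apply, smul_eq_mul, Finset.mul_sum]
      rw [Finset.sum_comm]
      refine Finset.sum_congr rfl (fun q _ => Finset.sum_congr rfl (fun p _ => ?_))
      ring
    rw [h2] at h1
    simp only [hD4] at h1
    simpa using h1
  have hTr : finrank (UP 𝒰 κ₀) T = S := by
    rw [hT, finrank_span_eq_card hxli, Fintype.card_fin]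
  have hy : ∀ i, gr 𝒰 C (fun b : ι => pb l β b.1 i) = cst 𝒰 C (β i) + ∑ k, cst 𝒰 C (l k) *
      algebraMap (UP 𝒰 κ₀) (UP 𝒰 C) (gr 𝒰 κ₀ (fun b : ι => b.1 (k, i))) := by
    intro i
    simp only [cst_apply]
    rw [gr_comb, ← map_add]
    rfl
  refine core3 (κ₀ := UP 𝒰 κ₀) (κ := UP 𝒰 κ) (C := UP 𝒰 C) (c := c) ?_ (fun k => gr 𝒰 C (fun _ : ι => l k))
    (col2_U 𝒰 (fun _ => l) (fun _ => hcol)) (fun u => gr 𝒰 C (fun _ : ι => ω u))
    (fun i => gr 𝒰 C (fun b : ι => pb l β b.1 i)) T ?_ (by rw [hTr]; exact hS)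
  · intro a
    refine ⟨algebraMap (UP 𝒰 κ₀) (UP 𝒰 κ) a, ?_⟩
    obtain ⟨a, rfl⟩ := gr_surj 𝒰 a
    rw [algebraMap_gr, algebraMap_gr, algebraMap_gr]
    congr 1
    funext t
    exact (IsScalarTower.algebraMap_apply κ₀ κ C _).symm
  · intro P hP hP0 v hv
    refine Submodule.span_induction (p := fun v _ => ∃ a : (Fin n →₀ ℕ) → Fin m → UP 𝒰 κ,
      ∑ i, MvPolynomial.eval (fun i => gr 𝒰 C (fun b : ι => pb l β b.1 i)) (MvPolynomial.pderiv i P) *
        ∑ k, gr 𝒰 C (fun _ : ι => l k) * algebraMap (UP 𝒰 κ₀) (UP 𝒰 C) (v k i) =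
        ∑ γ ∈ Pool.Agent.R350.box n D, (∏ i, (gr 𝒰 C (fun b : ι => pb l β b.1 i)) ^ γ i) *
          ∑ t, algebraMap (UP 𝒰 κ) (UP 𝒰 C) (a γ t) * gr 𝒰 C (fun _ : ι => ω t)) ?_ ?_ ?_ ?_ hv
    · rintro _ ⟨q, rfl⟩
      obtain ⟨hP1, hP2⟩ := hP
      choose a ha using hP2
      choose a' ha' using fun c => hD2 q c
      refine ⟨fun γ t => - a' (a γ t), ?_⟩
      have h1 := chain2 (Dr q) (fun i => gr 𝒰 C (fun b : ι => pb l β b.1 i)) (Pool.Agent.R350.box n D) P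
        (support_box hP1)
      rw [hP0, map_zero] at h1
      have h2 : ∀ γ, Dr q (P.coeff γ) = ∑ t, algebraMap (UP 𝒰 κ) (UP 𝒰 C) (a' (a γ t)) *
          gr 𝒰 C (fun _ : ι => ω t) := by
        intro γ
        rw [ha, map_sum]
        refine Finset.sum_congr rfl (fun t _ => ?_)
        have h3 : Dr q (gr 𝒰 C (fun _ : ι => ω t)) = 0 := hD3 q (ω t)
        rw [(Dr q).leibniz, h3, smul_zero, zero_add, smul_eq_mul, ha', mul_comm]
      have h3 : ∀ i, Dr q (gr 𝒰 C (fun b : ι => pb l β b.1 i)) = ∑ k, gr 𝒰 C (fun _ : ι => l k) *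
          algebraMap (UP 𝒰 κ₀) (UP 𝒰 C) (x q k i) := by
        intro i
        rw [hy, map_add, hD3, zero_add, map_sum]
        refine Finset.sum_congr rfl (fun k _ => ?_)
        rw [(Dr q).leibniz, hD3, smul_zero, add_zero, smul_eq_mul, hD1]
        rfl
      simp only [h2, h3] at h1
      rw [← sub_eq_zero]
      rw [eq_comm] at h1
      rw [← h1]
      simp only [map_neg, neg_mul, Finset.sum_neg_distrib, mul_neg, sub_neg_eq_add]
      rw [add_comm]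
    · exact ⟨0, by simp⟩
    · rintro v v' _ _ ⟨a, ha⟩ ⟨a', ha'⟩
      refine ⟨a + a', ?_⟩
      simp only [Pi.add_apply, map_add, mul_add, add_mul, Finset.sum_add_distrib, ha, ha']
    · rintro g v _ ⟨a, ha⟩
      obtain ⟨g', hg'⟩ : ∃ g' : UP 𝒰 κ, algebraMap (UP 𝒰 κ) (UP 𝒰 C) g' = algebraMap (UP 𝒰 κ₀) (UP 𝒰 C) g := by
        refine ⟨algebraMap (UP 𝒰 κ₀) (UP 𝒰 κ) g, ?_⟩
        obtain ⟨g, rfl⟩ := gr_surj 𝒰 g
        rw [algebraMap_gr, algebraMap_gr, algebraMap_gr]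
        congr 1
        funext t
        exact (IsScalarTower.algebraMap_apply κ₀ κ C _).symm
      refine ⟨fun γ t => g' * a γ t, ?_⟩
      have h1 : ∀ i, ∑ k, gr 𝒰 C (fun _ : ι => l k) * algebraMap (UP 𝒰 κ₀) (UP 𝒰 C) ((g • v) k i) =
          algebraMap (UP 𝒰 κ₀) (UP 𝒰 C) g * ∑ k, gr 𝒰 C (fun _ : ι => l k) *
            algebraMap (UP 𝒰 κ₀) (UP 𝒰 C) (v k i) := by
        intro i
        rw [Finset.mul_sum]
        refine Finset.sum_congr rfl (fun k _ => ?_)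
        rw [Pi.smul_apply, Pi.smul_apply, smul_eq_mul, map_mul]
        ring
      simp only [h1]
      have h2 : ∀ i, MvPolynomial.eval (fun i => gr 𝒰 C (fun b : ι => pb l β b.1 i)) (MvPolynomial.pderiv i P) *
          (algebraMap (UP 𝒰 κ₀) (UP 𝒰 C) g * ∑ k, gr 𝒰 C (fun _ : ι => l k) *
            algebraMap (UP 𝒰 κ₀) (UP 𝒰 C) (v k i)) = algebraMap (UP 𝒰 κ₀) (UP 𝒰 C) g *
          (MvPolynomial.eval (fun i => gr 𝒰 C (fun b : ι => pb l β b.1 i)) (MvPolynomial.pderiv i P) *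
          (∑ k, gr 𝒰 C (fun _ : ι => l k) * algebraMap (UP 𝒰 κ₀) (UP 𝒰 C) (v k i))) := by
        intro i
        ring
      simp only [h2]
      rw [← Finset.mul_sum, ha, Finset.mul_sum]
      refine Finset.sum_congr rfl (fun γ _ => ?_)
      simp only [map_mul, hg', Finset.mul_sum]
      refine Finset.sum_congr rfl (fun t _ => ?_)
      ring

/-- **Dimension, uniform.** -/
theorem dim_unif3 (κ₀ κ C : Type) [Field κ₀] [CharZero κ₀] [Field κ] [CharZero κ] [Field C] [CharZero C]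
    [Algebra κ₀ κ] [Algebra κ₀ C] [Algebra κ C] [IsScalarTower κ₀ κ C] (s n m D c e S : ℕ)
    (hS : s * e + n * (c * n) < S) :
    ∃ E : ℕ, ∀ l : Fin s → C, Col2 κ₀ κ C s n (m * (D + 1) ^ n) c l → ∀ (β : Fin n → C) (ω : Fin m → C)
      (φ : Fin S → Fin s × Fin n → κ₀),
      ∃ Δ : MvPolynomial (Fin S) κ₀, Δ ≠ 0 ∧ Δ.totalDegree ≤ E ∧ ∀ b : Fin s × Fin n → κ₀,
        ¬ Good κ₀ κ D ω (e + 1) (pb l β b) → MvPolynomial.eval (fun q => ∑ x, φ q x * b x) Δ = 0 := by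
  classical
  by_contra hcon
  push Not at hcon
  choose l hl β ω φ hb using hcon
  let 𝒰 : Ultrafilter ℕ := Filter.hyperfilter ℕ
  have hch1 : CharZero (UP 𝒰 κ₀) := charZero_UP 𝒰
  have hch2 : CharZero (UP 𝒰 C) := charZero_UP 𝒰
  have hch3 : CharZero (UP 𝒰 κ) := charZero_UP 𝒰
  have htow : IsScalarTower (UP 𝒰 κ₀) (UP 𝒰 κ) (UP 𝒰 C) := by
    refine IsScalarTower.of_algebraMap_eq (fun a => ?_)
    obtain ⟨a, rfl⟩ := gr_surj 𝒰 a
    rw [algebraMap_gr, algebraMap_gr, algebraMap_gr]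
    congr 1
    funext t
    exact IsScalarTower.algebraMap_apply κ₀ κ C _
  have hpt : ∀ (b : Fin s × Fin n → ℕ → κ₀), pb (fun k => gr 𝒰 C (fun t => l t k)) (fun i => gr 𝒰 C (fun t => β t i))
      (fun x => gr 𝒰 κ₀ (b x)) = fun i => gr 𝒰 C (fun t => pb (l t) (β t) (fun x => b x t) i) := by
    intro b
    funext i
    rw [pb, gr_comb, ← map_add]
    rfl
  obtain ⟨Δ, hΔ0, hΔ⟩ := dim_fixed3 (κ₀ := UP 𝒰 κ₀) (κ := UP 𝒰 κ) (C := UP 𝒰 C) (fun k => gr 𝒰 C (fun t => l t k))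
    (col2_U 𝒰 l hl) (fun i => gr 𝒰 C (fun t => β t i)) (fun u => gr 𝒰 C (fun t => ω t u)) hS
    (fun q x => gr 𝒰 κ₀ (fun t => φ t q x))
  choose δ hδ using fun γ => gr_surj 𝒰 (Δ.coeff γ)
  set Q : ℕ → MvPolynomial (Fin S) κ₀ := fun t =>
    ∑ γ ∈ Δ.support, MvPolynomial.monomial γ (δ γ t) with hQ
  have hQdeg : ∀ t, (Q t).totalDegree ≤ Δ.totalDegree := by
    intro t
    have h1 : (Q t).support ⊆ Δ.support := by
      simp only [hQ]
      exact support_sum_mon Δ.support (fun γ => δ γ t)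
    exact Finset.sup_mono h1
  have hΔQ : Δ = ∑ γ ∈ Δ.support, MvPolynomial.monomial γ (gr 𝒰 κ₀ (δ γ)) := by
    conv_lhs => rw [eq_sum_mon (subset_refl Δ.support)]
    exact Finset.sum_congr rfl fun γ _ => by rw [hδ]
  have hQ0 : ∀ᶠ t in (𝒰 : Filter ℕ), Q t ≠ 0 := by
    obtain ⟨γ, hγ⟩ := MvPolynomial.ne_zero_iff.1 hΔ0
    have h1 : ¬ ∀ᶠ t in (𝒰 : Filter ℕ), δ γ t = 0 := fun h => hγ (by
      rw [← hδ γ, gr_eq_zero]; exact h)
    rw [← Ultrafilter.eventually_not] at h1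
    refine h1.mono fun t ht h0 => ht ?_
    have h2 := congrArg (MvPolynomial.coeff γ) h0
    simp only [hQ] at h2
    rwa [coeff_sum_mon, if_pos (MvPolynomial.mem_support_iff.2 hγ), MvPolynomial.coeff_zero] at h2
  have hdeg : ∀ᶠ t in (𝒰 : Filter ℕ), (Q t).totalDegree ≤ t := by
    have h1 : ∀ᶠ t in (Filter.atTop : Filter ℕ), Δ.totalDegree ≤ t :=
      Filter.eventually_ge_atTop _
    have h2 : ∀ᶠ t in (𝒰 : Filter ℕ), Δ.totalDegree ≤ t :=
      Filter.Eventually.filter_mono Nat.hyperfilter_le_atTop h1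
    exact h2.mono fun t ht => (hQdeg t).trans ht
  have hbad : ∀ t, ∃ b : Fin s × Fin n → κ₀, ¬ Good κ₀ κ D (ω t) (e + 1) (pb (l t) (β t) b) ∧
      (Q t ≠ 0 → (Q t).totalDegree ≤ t → MvPolynomial.eval (fun q => ∑ x, φ t q x * b x) (Q t) ≠ 0) := by
    intro t
    by_cases h : Q t ≠ 0 ∧ (Q t).totalDegree ≤ t
    · obtain ⟨b, h0, h1⟩ := hb t (Q t) h.1 h.2
      exact ⟨b, h0, fun _ _ => h1⟩
    · obtain ⟨b, hb, -⟩ := hb t 1 one_ne_zero (by rw [MvPolynomial.totalDegree_one]; exact Nat.zero_le _)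
      exact ⟨b, hb, fun h1 h2 => absurd ⟨h1, h2⟩ h⟩
  choose b hbG hbad using hbad
  have hev2 : MvPolynomial.eval (fun q => ∑ x, gr 𝒰 κ₀ (fun t => φ t q x) *
      gr 𝒰 κ₀ (fun t => b t x)) Δ = gr 𝒰 κ₀ (fun t =>
        MvPolynomial.eval (fun q => ∑ x, φ t q x * b t x) (Q t)) := by
    have h1 : (fun q => ∑ x, gr 𝒰 κ₀ (fun t => φ t q x) * gr 𝒰 κ₀ (fun t => b t x)) =
        fun q => gr 𝒰 κ₀ (fun t => ∑ x, φ t q x * b t x) := by
      funext q
      simp only [← map_mul]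
      rw [← map_sum]
      congr 1
      funext t
      rw [Finset.sum_apply]
      rfl
    rw [h1]
    conv_lhs => rw [hΔQ]
    rw [eval_U]
  have hfin := hΔ (fun x => gr 𝒰 κ₀ (fun t => b t x)) (by
    rw [hpt (fun x t => b t x)]
    exact notGood_U 𝒰 ω (fun t => pb (l t) (β t) (b t)) hbG)
  rw [hev2, gr_eq_zero] at hfin
  obtain ⟨t, ⟨ht1, ht2⟩, ht3⟩ := ((hfin.and hQ0).and hdeg).exists
  exact hbad t ht2 ht3 ht1

/-- **Counting.** -/
theorem count3 (κ₀ κ C : Type) [Field κ₀] [CharZero κ₀] [Field κ] [CharZero κ] [Field C] [CharZero C]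
    [Algebra κ₀ κ] [Algebra κ₀ C] [Algebra κ C] [IsScalarTower κ₀ κ C] (s n m D c e : ℕ) :
    ∃ K : ℕ, ∀ l : Fin s → C, Col2 κ₀ κ C s n (m * (D + 1) ^ n) c l → ∀ (β : Fin n → C) (ω : Fin m → C),
      ∀ M : ℕ, 1 ≤ M → Set.ncard {x : Fin s → Fin n → ℤ | (∀ k i, |x k i| ≤ M) ∧
        ¬ Good κ₀ κ D ω (e + 1) (fun i => β i + ∑ k, l k * (x k i : C))} ≤
        K * M ^ (s * e + n * (c * n)) := by
  obtain ⟨E, hE⟩ := dim_unif3 κ₀ κ C s n m D c e (s * e + n * (c * n) + 1) (Nat.lt_succ_self _)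
  obtain ⟨K, hK⟩ := count_mat κ₀ (s * e + n * (c * n)) E s n
  refine ⟨K, fun l hl β ω M hM => ?_⟩
  have h1 := hK {b | ¬ Good κ₀ κ D ω (e + 1) (pb l β b)} (by
    intro φ
    obtain ⟨Δ, h1, h2, h3⟩ := hE l hl β ω φ
    exact ⟨Δ, h1, h2, fun b hb => h3 b hb⟩) M hM
  have h2 : {x : Fin s → Fin n → ℤ | (∀ k i, |x k i| ≤ M) ∧
        ¬ Good κ₀ κ D ω (e + 1) (fun i => β i + ∑ k, l k * (x k i : C))} =
      {a : Fin s → Fin n → ℤ | (∀ i j, |a i j| ≤ M) ∧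
        (fun x : Fin s × Fin n => (a x.1 x.2 : κ₀)) ∈ {b | ¬ Good κ₀ κ D ω (e + 1) (pb l β b)}} := by
    have h3 : ∀ x : Fin s → Fin n → ℤ, pb l β (fun y : Fin s × Fin n => (x y.1 y.2 : κ₀)) =
        fun i => β i + ∑ k, l k * (x k i : C) := by
      intro x
      funext i
      simp only [pb, map_intCast]
    ext x
    simp only [Set.mem_ofPred_eq, h3]
  rw [h2]
  exact h1

end Pool.Agent.D0H4.Tr
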