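import Pool.Agent.D0H4.Rk.Columns

/-!
# Combinations of linear combinations of logarithms in a finite dimensional space are determined by few columns
-/

set_option autoImplicit false

namespace Pool.Agent.D0H4.Tr

open Module Finset
open Pool.Agent.W254.Ab (QA mem_QA)
open Pool.Agent.W254.PA (Hyp)
open Pool.Agent.TH160.TowP (range_le exists_coord V_mul)
open Pool.Agent.D0H4.Rk (vl vl_apply vl_inj greedy)

/-- if `∑ G_i ∑ λ_k x_{k i}` is in the span of the `ω_t` and few of the `∑ G_i x_{k i}` are zero, all are zero -/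
def Col2 (κ₀ κ C : Type*) [Field κ₀] [Field κ] [Field C] [Algebra κ₀ C] [Algebra κ C] (s n m c : ℕ)
    (l : Fin s → C) : Prop :=
  ∀ (G : Fin n → C) (ω : Fin m → C), ∃ K : Finset (Fin s), K.card ≤ c ∧ ∀ x : Fin s → Fin n → κ₀,
    (∃ a : Fin m → κ, ∑ i, G i * ∑ k, l k * algebraMap κ₀ C (x k i) = ∑ t, algebraMap κ C (a t) * ω t) →
    (∀ k ∈ K, ∑ i, G i * algebraMap κ₀ C (x k i) = 0) → ∀ k, ∑ i, G i * algebraMap κ₀ C (x k i) = 0

variable {Ω : Type} [Field Ω] [CharZero Ω] {V₀ : Submodule (QA Ω) Ω}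

theorem col2_alg (hV : Hyp V₀) (h1 : (1 : Ω) ∈ V₀) {n m s : ℕ} (l : Fin s → Ω) (hl : ∀ k, l k ∈ V₀)
    (hli : LinearIndependent (QA Ω) (Fin.cons 1 l : Fin (s + 1) → Ω)) :
    Col2 (QA Ω) (QA Ω) Ω s n m ((n + m) ^ 2) l := by
  classical
  intro G ω
  obtain ⟨d, e, M, hd, he, hM⟩ := exists_coord (Sum.elim G ω)
  rw [Fintype.card_sum, Fintype.card_fin, Fintype.card_fin] at hd
  set l' : Fin (s + 1) → Ω := Fin.cons 1 l with hl'
  have hl'V : ∀ k, l' k ∈ V₀ := by
    intro k
    refine Fin.cases ?_ (fun k => ?_) k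
    · rw [hl', Fin.cons_zero]; exact h1
    · rw [hl', Fin.cons_succ]; exact hl k
  set ev : (Fin (s + 1) → Fin d → QA Ω) →ₗ[QA Ω] Ω :=
    { toFun := fun z => ∑ q, e q * vl l' d z q
      map_add' := by
        intro z z'
        rw [map_add, ← sum_add_distrib]
        exact sum_congr rfl (fun q _ => by rw [Pi.add_apply, mul_add])
      map_smul' := by
        intro a z
        rw [map_smul, RingHom.id_apply, smul_sum]
        exact sum_congr rfl (fun q _ => by rw [Pi.smul_apply, mul_smul_comm]) } with hev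
  set Z := LinearMap.ker ev with hZ
  have hZr : finrank (QA Ω) Z ≤ (n + m) ^ 2 := by
    let b := Module.finBasis (QA Ω) Z
    set v : Fin (finrank (QA Ω) Z) → Fin d → Ω := fun q => vl l' d (b q : Fin (s + 1) → Fin d → QA Ω) with hv
    have hli2 : LinearIndependent (QA Ω) v := by
      have h1 := b.linearIndependent.map' (vl l' d ∘ₗ Z.subtype) (by
        rw [LinearMap.ker_eq_bot']
        intro x hx
        exact Subtype.ext (vl_inj l' hli hx))
      exact h1
    have h2 := range_le hV e he v (fun q i => by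
      rw [hv]
      simp only [vl_apply]
      refine V₀.sum_mem (fun k _ => ?_)
      rw [mul_comm]
      exact V_mul (mem_QA.mp ((b q : Fin (s + 1) → Fin d → QA Ω) k i).2) (hl'V k)) (fun q => by
      have h3 := LinearMap.mem_ker.mp (b q).2
      exact h3)
    rw [LinearMap.finrank_range_of_inj (linearIndependent_iff_injective_fintypeLinearCombination.mp hli2),
      Module.finrank_fintype_fun_eq_card, Fintype.card_fin] at h2
    refine h2.trans ?_
    calc d * (d - 1) ≤ (n + m) * (n + m) := Nat.mul_le_mul hd (by omega)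
      _ = (n + m) ^ 2 := by ring
  obtain ⟨K, hK, hK2⟩ := greedy (fun k : Fin s =>
    (LinearMap.proj k.succ : (Fin (s + 1) → Fin d → QA Ω) →ₗ[QA Ω] (Fin d → QA Ω))) ((n + m) ^ 2) Z hZr (by
      intro z hz h
      have h3 : ∀ k : Fin s, z k.succ = 0 := h
      have h4 : ev z = 0 := hz
      have h5 : ev z = ∑ q, (z 0 q) • e q := by
        change ∑ q, e q * vl l' d z q = _
        refine sum_congr rfl (fun q _ => ?_)
        rw [vl_apply, Fin.sum_univ_succ, Algebra.smul_def, mul_comm]
        congr 1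
        rw [sum_eq_zero (fun k _ => by rw [h3 k]; exact mul_zero _), add_zero, hl', Fin.cons_zero, one_mul]
        rfl
      rw [h5] at h4
      have h6 := Fintype.linearIndependent_iff.mp he _ h4
      funext k
      refine Fin.cases ?_ (fun k => h3 k) k
      funext q
      exact h6 q)
  have hval : ∀ y : Fin n → QA Ω, ∑ i, G i * (y i : Ω) = ∑ q, (∑ i, M (Sum.inl i) q * y i) • e q := by
    intro y
    have h1 : ∀ i, G i = ∑ q, (M (Sum.inl i) q : Ω) * e q := fun i => hM (Sum.inl i)
    simp only [h1, sum_mul, Finset.sum_smul]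
    rw [sum_comm]
    refine sum_congr rfl (fun q _ => sum_congr rfl (fun i _ => ?_))
    rw [Algebra.smul_def]
    change _ = ((M (Sum.inl i) q * y i : QA Ω) : Ω) * e q
    push_cast
    ring
  refine ⟨K, hK, fun x hx hxK => ?_⟩
  obtain ⟨a, ha⟩ := hx
  set z : Fin (s + 1) → Fin d → QA Ω := Fin.cons (fun q => - ∑ t, M (Sum.inr t) q * a t)
    (fun k q => ∑ i, M (Sum.inl i) q * x k i) with hz
  have hzs : ∀ k : Fin s, z k.succ = fun q => ∑ i, M (Sum.inl i) q * x k i := fun k => rfl
  have hz0 : z 0 = fun q => - ∑ t, M (Sum.inr t) q * a t := rfl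
  have hzZ : z ∈ Z := by
    rw [hZ, LinearMap.mem_ker]
    change ∑ q, e q * vl l' d z q = 0
    have h1 : ∑ q, e q * vl l' d z q = ∑ i, G i * ∑ k, l k * (x k i : Ω) - ∑ t, (a t : Ω) * ω t := by
      have h2 : ∀ q, vl l' d z q = ∑ k, l k * ∑ i, (M (Sum.inl i) q : Ω) * (x k i : Ω) -
          ∑ t, (M (Sum.inr t) q : Ω) * (a t : Ω) := by
        intro q
        rw [vl_apply, Fin.sum_univ_succ]
        have h3 : l' 0 = 1 := rfl
        have h4 : ∀ k : Fin s, l' k.succ = l k := fun k => rfl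
        rw [h3, one_mul, hz0]
        simp only [h4, hzs]
        push_cast
        ring
      have h5 : ∀ i, G i = ∑ q, (M (Sum.inl i) q : Ω) * e q := fun i => hM (Sum.inl i)
      have h6 : ∀ t, ω t = ∑ q, (M (Sum.inr t) q : Ω) * e q := fun t => hM (Sum.inr t)
      simp only [h2, mul_sub, sum_sub_distrib, h5, h6, mul_sum, sum_mul]
      congr 1
      · rw [sum_comm]
        rw [sum_comm (s := univ (α := Fin n))]
        refine sum_congr rfl (fun k _ => ?_)
        rw [sum_comm]
        refine sum_congr rfl (fun i _ => sum_congr rfl (fun q _ => ?_))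
        ring
      · rw [sum_comm]
        refine sum_congr rfl (fun t _ => sum_congr rfl (fun q _ => ?_))
        ring
    rw [h1, sub_eq_zero]
    exact ha
  have h7 := hK2 z hzZ (fun k hk => by
    change z k.succ = 0
    rw [hzs]
    have h8 := hxK k hk
    have h9 := hval (x k)
    change ∑ i, G i * (x k i : Ω) = 0 at h8
    rw [h8] at h9
    funext q
    exact Fintype.linearIndependent_iff.mp he _ h9.symm q)
  intro k
  have h8 := congrFun h7 k.succ
  rw [hzs] at h8
  change ∑ i, G i * (x k i : Ω) = 0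
  rw [hval]
  refine sum_eq_zero (fun q _ => ?_)
  have h9 : ∑ i, M (Sum.inl i) q * x k i = 0 := congrFun h8 q
  rw [h9]
  exact zero_smul _ _

theorem col2_rat (hV : Hyp V₀) (h1 : (1 : Ω) ∈ V₀) {n m s : ℕ} (l : Fin s → Ω) (hl : ∀ k, l k ∈ V₀)
    (hli : LinearIndependent (QA Ω) (Fin.cons 1 l : Fin (s + 1) → Ω)) :
    Col2 ℚ (QA Ω) Ω s n m ((n + m) ^ 2) l := by
  intro G ω
  obtain ⟨K, hK, h⟩ := col2_alg hV h1 l hl hli G ω
  have hc : ∀ z : ℚ, algebraMap (QA Ω) Ω (algebraMap ℚ (QA Ω) z) = algebraMap ℚ Ω z := fun z =>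
    (IsScalarTower.algebraMap_apply ℚ (QA Ω) Ω z).symm
  refine ⟨K, hK, fun x hx hxK => ?_⟩
  have h1 := h (fun k i => algebraMap ℚ (QA Ω) (x k i)) (by simp only [hc]; exact hx)
    (fun k hk => by simp only [hc]; exact hxK k hk)
  simp only [hc] at h1
  exact h1

end Pool.Agent.D0H4.Tr
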