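import Pool.Agent.D0H4.Rk.Core2
import Pool.Agent.D0H4.Tr.Col2
import Pool.Agent.R350.HA

/-!
# All relations with coefficients in a finite dimensional space vanish on a translate of a space
-/

set_option autoImplicit false

namespace Pool.Agent.D0H4.Tr

open Module Finset MvPolynomial
open Pool.Agent.D0H4.Rk (rank_two pivot chain pderiv_deg em em_apply)
open Pool.Agent.R350 (box mem_box support_box coeff_sum_mon support_sum_mon eq_sum_mon)

/-- a class of polynomials which is closed under directional derivatives -/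
theorem vanish2 {C : Type*} [Field C] [CharZero C] {n : ℕ} (y : Fin n → C) {J : Type*} [Fintype J] (w : J → Fin n → C)
    (QQ : Set (MvPolynomial (Fin n) C))
    (hcl : ∀ f ∈ QQ, ∀ j, (∑ i, MvPolynomial.C (w j i) * pderiv i f) ∈ QQ)
    (hstep : ∀ f ∈ QQ, eval y f = 0 → ∀ j, ∑ i, eval y (pderiv i f) * w j i = 0) :
    ∀ (m : ℕ) (f : MvPolynomial (Fin n) C), f ∈ QQ → f.totalDegree ≤ m → eval y f = 0 → ∀ z : J → C,
      eval (fun i => y i + ∑ j, z j * w j i) f = 0 := by
  classical
  intro m
  induction m with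
  | zero =>
    intro f _ hf h0 z
    rw [totalDegree_eq_zero_iff_eq_C.mp (Nat.le_zero.mp hf), eval_C] at h0 ⊢
    exact h0
  | succ m ih =>
    intro f hfQ hf h0 z
    set dd : J → MvPolynomial (Fin n) C := fun j => ∑ i, MvPolynomial.C (w j i) * pderiv i f with hdd
    have hddv : ∀ j (v : Fin n → C), eval v (dd j) = ∑ i, w j i * eval v (pderiv i f) := by
      intro j v
      rw [hdd, map_sum]
      refine sum_congr rfl (fun i _ => ?_)
      rw [map_mul, eval_C]
    have hdeg : ∀ j, (dd j).totalDegree ≤ m := by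
      intro j
      refine totalDegree_finsetSum_le (fun i _ => ?_)
      refine (totalDegree_mul _ _).trans ?_
      rw [totalDegree_C, zero_add]
      exact (pderiv_deg f i).trans (by omega)
    have hdd0 : ∀ j, eval y (dd j) = 0 := by
      intro j
      rw [hddv, ← hstep f hfQ h0 j]
      exact sum_congr rfl (fun i _ => mul_comm _ _)
    set u : Fin n → C := fun i => ∑ j, z j * w j i with hu
    set g : Fin n → Polynomial C := fun i => Polynomial.C (y i) + Polynomial.X * Polynomial.C (u i) with hg
    have hge : ∀ t i, Polynomial.eval t (g i) = y i + t * u i := by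
      intro t i
      rw [hg]
      simp only [Polynomial.eval_add, Polynomial.eval_mul, Polynomial.eval_C, Polynomial.eval_X]
    have hline : ∀ (t : C) (p : MvPolynomial (Fin n) C), Polynomial.eval t (aeval g p) =
        eval (fun i => y i + t * u i) p := by
      intro t p
      rw [Pool.Agent.D0H4.Rk.eval_line]
      simp only [hge]
      rfl
    have hder : Polynomial.derivative (aeval g f) = 0 := by
      have h1 := chain (S := C) (B := C) (R := Polynomial C) Polynomial.derivative' (by
        intro a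
        change Polynomial.derivative (algebraMap C (Polynomial C) a) = 0
        rw [Polynomial.algebraMap_apply, Polynomial.derivative_C]) g f
      change Polynomial.derivative (aeval g f) = ∑ i, aeval g (pderiv i f) * Polynomial.derivative (g i) at h1
      rw [h1]
      apply Polynomial.funext
      intro t
      rw [Polynomial.eval_finsetSum, Polynomial.eval_zero]
      have h2 : ∀ i, Polynomial.eval t (aeval g (pderiv i f) * Polynomial.derivative (g i)) =
          ∑ j, z j * (w j i * eval (fun i => y i + t * u i) (pderiv i f)) := by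
        intro i
        have h3 : Polynomial.derivative (g i) = Polynomial.C (u i) := by
          rw [hg]
          simp
        rw [h3, Polynomial.eval_mul, Polynomial.eval_C, hline]
        rw [hu]
        simp only []
        rw [mul_sum]
        refine sum_congr rfl (fun j _ => ?_)
        ring
      simp only [h2]
      rw [sum_comm]
      refine sum_eq_zero (fun j _ => ?_)
      rw [← mul_sum, ← hddv]
      have h4 := ih (dd j) (hcl f hfQ j) (hdeg j) (hdd0 j) (fun j' => t * z j')
      have h5 : (fun i => y i + ∑ j', t * z j' * w j' i) = fun i => y i + t * u i := by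
        funext i
        rw [hu]
        simp only []
        rw [mul_sum]
        congr 1
        exact sum_congr rfl (fun j _ => by ring)
      rw [h5] at h4
      rw [h4, mul_zero]
    have hconst := Polynomial.eq_C_of_natDegree_eq_zero (Polynomial.derivative_eq_zero.mp hder)
    have h1 : Polynomial.eval 1 (aeval g f) = Polynomial.eval 0 (aeval g f) := by
      rw [hconst, Polynomial.eval_C, Polynomial.eval_C]
    rw [hline, hline] at h1
    simp only [zero_mul, add_zero, one_mul] at h1
    rw [h1]
    exact h0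

/-- the polynomials of degree at most `D` in each variable with coefficients in the `κ`-span of the `ω_t` -/
def Cl (κ : Type*) {C : Type*} [Field κ] [Field C] [Algebra κ C] (D : ℕ) {m n : ℕ} (ω : Fin m → C) :
    Set (MvPolynomial (Fin n) C) :=
  {P | (∀ i, P.degreeOf i ≤ D) ∧ ∀ γ, ∃ a : Fin m → κ, P.coeff γ = ∑ t, algebraMap κ C (a t) * ω t}

section lin

variable {κ C : Type*} [Field κ] [Field C] [Algebra κ C] {s n : ℕ}

/-- reduction modulo a space -/
noncomputable def qT (T : Submodule κ (Fin s → Fin n → κ)) (W : Submodule κ (Fin n → κ)) :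
    T →ₗ[κ] (Fin s → (Fin n → κ) ⧸ W) :=
  LinearMap.pi (fun k => W.mkQ ∘ₗ LinearMap.proj k ∘ₗ T.subtype)

theorem mem_ker_qT {T : Submodule κ (Fin s → Fin n → κ)} {W : Submodule κ (Fin n → κ)} {x : T} :
    x ∈ LinearMap.ker (qT T W) ↔ ∀ k, (x : Fin s → Fin n → κ) k ∈ W := by
  rw [LinearMap.mem_ker]
  constructor
  · intro h k
    exact (Submodule.Quotient.mk_eq_zero W).mp (congrFun h k)
  · intro h
    funext k
    exact (Submodule.Quotient.mk_eq_zero W).mpr (h k)

/-- the codimension -/
noncomputable def ct (T : Submodule κ (Fin s → Fin n → κ)) (W : Submodule κ (Fin n → κ)) : ℕ :=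
  finrank κ (LinearMap.range (qT T W))

/-- a space of smallest dimension which contains almost all of `T` -/
theorem exists_min2 (T : Submodule κ (Fin s → Fin n → κ)) (q : ℕ) : ∃ W : Submodule κ (Fin n → κ),
    ct T W ≤ n * q ∧ ∀ W' : Submodule κ (Fin n → κ), W' ≤ W → ct T W' ≤ ct T W + q → W' = W := by
  classical
  set Pr : ℕ → Prop := fun m => ∃ W : Submodule κ (Fin n → κ), finrank κ W = m ∧ ct T W ≤ (n - m) * q with hPr
  have hex : ∃ m, Pr m := by
    refine ⟨finrank κ (⊤ : Submodule κ (Fin n → κ)), ⊤, rfl, ?_⟩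
    have : ct T (⊤ : Submodule κ (Fin n → κ)) = 0 := by
      rw [ct, LinearMap.range_eq_bot.mpr, finrank_bot]
      ext1 x
      have : x ∈ LinearMap.ker (qT T ⊤) := mem_ker_qT.mpr (fun k => Submodule.mem_top)
      exact this
    rw [this]
    exact Nat.zero_le _
  obtain ⟨W, hWm, hWc⟩ := Nat.find_spec hex
  have hle : finrank κ W ≤ n := by
    have := Submodule.finrank_le W
    rwa [Module.finrank_fintype_fun_eq_card, Fintype.card_fin] at this
  refine ⟨W, hWc.trans (Nat.mul_le_mul_right _ (Nat.sub_le _ _)), fun W' hW' hcd => ?_⟩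
  by_contra hne
  have hlt := Submodule.finrank_lt_finrank_of_lt (lt_of_le_of_ne hW' hne)
  rw [← hWm] at hWc
  have h1 : Pr (finrank κ W') := by
    refine ⟨W', rfl, ?_⟩
    have h2 : (n - finrank κ W + 1) * q ≤ (n - finrank κ W') * q := Nat.mul_le_mul_right _ (by omega)
    have h3 : (n - finrank κ W + 1) * q = (n - finrank κ W) * q + q := by ring
    omega
  have := Nat.find_min' hex h1
  omega

end lin

/-- **The main step.** -/
theorem core3 {κ₀ κ C : Type*} [Field κ₀] [Field κ] [Field C] [CharZero C] [Algebra κ₀ C] [Algebra κ C]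
    (hK : ∀ x : κ₀, ∃ x' : κ, algebraMap κ C x' = algebraMap κ₀ C x) {s n m D c : ℕ} (l : Fin s → C)
    (hcol : Col2 κ₀ κ C s n (m * (D + 1) ^ n) c l) (ω : Fin m → C) (y : Fin n → C)
    (T : Submodule κ₀ (Fin s → Fin n → κ₀))
    (hT : ∀ P ∈ Cl κ D (n := n) ω, eval y P = 0 → ∀ x ∈ T, ∃ a : (Fin n →₀ ℕ) → Fin m → κ,
      ∑ i, eval y (pderiv i P) * ∑ k, l k * algebraMap κ₀ C (x k i) =
        ∑ γ ∈ box n D, (∏ i, y i ^ γ i) * ∑ t, algebraMap κ C (a γ t) * ω t)
    {e : ℕ} (hS : s * e + n * (c * n) < finrank κ₀ T) :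
    ∃ w : Fin (e + 1) → Fin n → κ₀, LinearIndependent κ₀ w ∧ ∀ P ∈ Cl κ D (n := n) ω, eval y P = 0 →
      ∀ z : Fin (e + 1) → C, eval (fun i => y i + ∑ a, z a * algebraMap κ₀ C (w a i)) P = 0 := by
  classical
  obtain ⟨W, hWc, hWmin⟩ := exists_min2 T (c * n)
  have hbox : (box n D).card ≤ (D + 1) ^ n := by
    unfold Pool.Agent.R350.box
    refine card_image_le.trans ?_
    rw [card_univ, Fintype.card_fun, Fintype.card_fin, Fintype.card_fin]
  -- the orthogonality
  have hstep : ∀ P ∈ Cl κ D (n := n) ω, eval y P = 0 → ∀ w ∈ W,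
      ∑ i, eval y (pderiv i P) * algebraMap κ₀ C (w i) = 0 := by
    intro P hP hP0 w hw
    set G : Fin n → C := fun i => eval y (pderiv i P) with hG
    -- an enumeration of the generators
    obtain ⟨ω', hω'⟩ : ∃ ω' : Fin (m * (D + 1) ^ n) → C, ∀ a : (Fin n →₀ ℕ) → Fin m → κ,
        ∃ a' : Fin (m * (D + 1) ^ n) → κ,
        ∑ γ ∈ box n D, (∏ i, y i ^ γ i) * ∑ t, algebraMap κ C (a γ t) * ω t = ∑ u, algebraMap κ C (a' u) * ω' u := by
      obtain ⟨ι⟩ : Nonempty ((Fin m × (box n D)) ↪ Fin (m * (D + 1) ^ n)) :=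
        Function.Embedding.nonempty_of_card_le (by
          rw [Fintype.card_prod, Fintype.card_fin, Fintype.card_coe, Fintype.card_fin]
          exact Nat.mul_le_mul_left _ hbox)
      refine ⟨fun u => ∑ v : Fin m × (box n D), if ι v = u then (∏ i, y i ^ (v.2 : Fin n →₀ ℕ) i) * ω v.1 else 0,
        fun a => ⟨fun u => ∑ v : Fin m × (box n D), if ι v = u then a v.2 v.1 else 0, ?_⟩⟩
      have h1 : ∀ u, algebraMap κ C (∑ v : Fin m × (box n D), if ι v = u then a v.2 v.1 else 0) *
          (∑ v : Fin m × (box n D), if ι v = u then (∏ i, y i ^ (v.2 : Fin n →₀ ℕ) i) * ω v.1 else 0) =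
          ∑ v : Fin m × (box n D), if ι v = u then algebraMap κ C (a v.2 v.1) *
            ((∏ i, y i ^ (v.2 : Fin n →₀ ℕ) i) * ω v.1) else 0 := by
        intro u
        by_cases hu : ∃ v, ι v = u
        · obtain ⟨v, rfl⟩ := hu
          simp only [ι.injective.eq_iff, sum_ite_eq', mem_univ, if_true]
        · have h2 : ∀ v, ¬ ι v = u := fun v hv => hu ⟨v, hv⟩
          simp only [h2, if_false, sum_const_zero, mul_zero]
      simp only [h1]
      rw [sum_comm]
      simp only [sum_ite_eq, mem_univ, if_true]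
      rw [Fintype.sum_prod_type, sum_comm, ← sum_coe_sort (box n D)]
      refine sum_congr rfl (fun γ _ => ?_)
      rw [mul_sum]
      exact sum_congr rfl (fun t _ => by ring)
    obtain ⟨K, hKc, hK2⟩ := hcol G ω'
    set W' : Submodule κ₀ (Fin n → κ₀) :=
      { carrier := {w | w ∈ W ∧ ∑ i, G i * algebraMap κ₀ C (w i) = 0}
        add_mem' := by
          rintro x x' ⟨h1, h2⟩ ⟨h3, h4⟩
          refine ⟨W.add_mem h1 h3, ?_⟩
          simp only [Pi.add_apply, map_add, mul_add, sum_add_distrib, h2, h4, add_zero]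
        zero_mem' := ⟨W.zero_mem, by simp⟩
        smul_mem' := by
          rintro a x ⟨h1, h2⟩
          refine ⟨W.smul_mem _ h1, ?_⟩
          have h3 : ∑ i, G i * algebraMap κ₀ C ((a • x) i) = algebraMap κ₀ C a * ∑ i, G i * algebraMap κ₀ C (x i) := by
            rw [mul_sum]
            refine sum_congr rfl (fun i _ => ?_)
            rw [Pi.smul_apply, smul_eq_mul, map_mul]
            ring
          rw [h3, h2, mul_zero] } with hW'
    have hW'm : ∀ x, x ∈ W' ↔ x ∈ W ∧ ∑ i, G i * algebraMap κ₀ C (x i) = 0 := fun x => Iff.rfl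
    let θ : LinearMap.ker (qT T W) →ₗ[κ₀] (K → (Fin n → κ₀) ⧸ W') :=
      LinearMap.pi (fun k => W'.mkQ ∘ₗ LinearMap.proj (k : Fin s) ∘ₗ T.subtype ∘ₗ (LinearMap.ker (qT T W)).subtype)
    have h1 := rank_two (qT T W) θ (qT T W') (by
      intro x hx
      have hxW := mem_ker_qT.mp x.2
      have hx1 : ∀ k ∈ K, ((x : T) : Fin s → Fin n → κ₀) k ∈ W' := fun k hk =>
        (Submodule.Quotient.mk_eq_zero W').mp (congrFun hx ⟨k, hk⟩)
      obtain ⟨a, ha⟩ := hT P hP hP0 _ (x : T).2
      obtain ⟨a', ha'⟩ := hω' a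
      have h2 := hK2 _ ⟨a', ha.trans ha'⟩ (fun k hk => ((hW'm _).mp (hx1 k hk)).2)
      exact LinearMap.mem_ker.mp (mem_ker_qT.mpr (fun k => (hW'm _).mpr ⟨hxW k, h2 k⟩)))
    have h2 : finrank κ₀ (K → (Fin n → κ₀) ⧸ W') ≤ c * n := by
      rw [Module.finrank_pi_fintype, sum_const, card_univ, Fintype.card_coe, smul_eq_mul]
      have h4 : finrank κ₀ ((Fin n → κ₀) ⧸ W') ≤ n := by
        have := Submodule.finrank_quotient_le W'
        rwa [Module.finrank_fintype_fun_eq_card, Fintype.card_fin] at this
      exact Nat.mul_le_mul hKc h4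
    have h3 : W' = W := by
      refine hWmin W' (fun x hx => ((hW'm x).mp hx).1) ?_
      change finrank κ₀ (LinearMap.range (qT T W')) ≤ finrank κ₀ (LinearMap.range (qT T W)) + c * n
      omega
    have h4 : w ∈ W' := by rw [h3]; exact hw
    exact ((hW'm w).mp h4).2
  -- the class is closed
  have hcl : ∀ P ∈ Cl κ D (n := n) ω, ∀ w : Fin n → κ₀,
      (∑ i, MvPolynomial.C (algebraMap κ₀ C (w i)) * pderiv i P) ∈ Cl κ D (n := n) ω := by
    rintro P ⟨hP1, hP2⟩ w
    choose w' hw' using fun i => hK (w i)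
    choose a ha using hP2
    refine ⟨fun i => ?_, fun γ => ⟨fun t => ∑ i, w' i * (a (γ + Finsupp.single i 1) t * ((γ i + 1 : ℕ) : κ)), ?_⟩⟩
    · refine (degreeOf_sum_le _ _ _).trans (Finset.sup_le fun j _ => ?_)
      refine (degreeOf_C_mul_le _ _ _).trans ?_
      rw [degreeOf_le_iff]
      intro γ hγ
      rw [MvPolynomial.mem_support_iff, coeff_pderiv] at hγ
      have h1 : γ + Finsupp.single j 1 ∈ P.support := by
        rw [MvPolynomial.mem_support_iff]
        exact left_ne_zero_of_mul hγ
      have h2 := degreeOf_le_iff.mp (hP1 i) _ h1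
      rw [Finsupp.add_apply] at h2
      omega
    · rw [coeff_sum]
      simp only [coeff_C_mul, coeff_pderiv, ha, map_sum, map_mul, hw', map_natCast, sum_mul, mul_sum]
      rw [sum_comm]
      refine sum_congr rfl (fun t _ => sum_congr rfl (fun i _ => ?_))
      push_cast
      ring
  -- the dimension
  have hdim : e < finrank κ₀ W := by
    let θ : LinearMap.ker (qT T W) →ₗ[κ₀] (Fin s → W) :=
      { toFun := fun x => fun k => ⟨((x : T) : Fin s → Fin n → κ₀) k, mem_ker_qT.mp x.2 k⟩
        map_add' := fun x x' => rfl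
        map_smul' := fun a x => rfl }
    have h1 := rank_two (qT T W) θ T.subtype (by
      intro x hx
      funext k
      exact congrArg (fun z => (z k : Fin n → κ₀)) hx)
    have h2 : finrank κ₀ (Fin s → W) = s * finrank κ₀ W := by
      rw [Module.finrank_pi_fintype, sum_const, card_univ, Fintype.card_fin, smul_eq_mul]
    rw [Submodule.range_subtype, h2] at h1
    have h4 : finrank κ₀ (LinearMap.range (qT T W)) = ct T W := rfl
    by_contra hcon
    push Not at hcon
    have h5 : s * finrank κ₀ W ≤ s * e := Nat.mul_le_mul_left _ hcon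
    omega
  obtain ⟨J, w, hwW, hwJ, hJc, hJ0⟩ := pivot W
  obtain ⟨ι⟩ : Nonempty (Fin (e + 1) ↪ J) :=
    Function.Embedding.nonempty_of_card_le (by rw [Fintype.card_fin, Fintype.card_coe]; omega)
  have hwli : LinearIndependent κ₀ w := by
    rw [Fintype.linearIndependent_iff]
    intro g hg j
    have h1 := congrFun hg j
    rw [Finset.sum_apply] at h1
    simp only [Pi.smul_apply, hwJ, smul_eq_mul, mul_ite, mul_one, mul_zero] at h1
    simpa using h1
  refine ⟨fun a => w (ι a), hwli.comp ι ι.injective, fun P hP hP0 z => ?_⟩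
  exact vanish2 y (fun a i => algebraMap κ₀ C (w (ι a) i)) (Cl κ D (n := n) ω) (fun f hf a => hcl f hf _)
    (fun f hf hf0 a => hstep f hf hf0 _ (hwW _)) _ P hP le_rfl hP0 z

end Pool.Agent.D0H4.Tr
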