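import Pool.Agent.D0H4.Tr.Ultra3
import Pool.Agent.TH160.TowP.CFull

/-!
# Algebraic relations of bounded degree between combinations of logarithms: all relations at once
-/

set_option autoImplicit false

namespace Pool.Agent.D0H4.Tr

open Module Finset
open Pool.Agent.W254.Ab (QA mem_QA)
open Pool.Agent.W254.PA (Hyp)
open Pool.Agent.H301R2.SSE (Lt)
open Pool.Agent.TH160.TowP (hyp_lt)
open Pool.Agent.D0H4.Rk (pb pivot)

/-- all relations of `v` vanish on a translate of a space of dimension `f` defined over `κ` -/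
def Flat (κ : Type) [Field κ] [Algebra κ ℂ] (D : ℕ) {m n : ℕ} (ω : Fin m → ℂ) (f : ℕ) (v : Fin n → ℂ) : Prop :=
  ∃ w : Fin f → Fin n → κ, LinearIndependent κ w ∧ ∀ P : MvPolynomial (Fin n) ℂ, (∀ i, P.degreeOf i ≤ D) →
    (∀ γ, P.coeff γ ∈ Submodule.span (QA ℂ) (Set.range ω)) → MvPolynomial.eval v P = 0 →
    ∀ z : Fin f → ℂ, MvPolynomial.eval (fun i => v i + ∑ a, z a * algebraMap κ ℂ (w a i)) P = 0

theorem flat_iff {κ : Type} [Field κ] [Algebra κ ℂ] {D m n : ℕ} (ω : Fin m → ℂ) (f : ℕ) (v : Fin n → ℂ) :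
    Flat κ D ω f v ↔ Good κ (QA ℂ) D ω f v := by
  have h1 : ∀ z : ℂ, z ∈ Submodule.span (QA ℂ) (Set.range ω) ↔
      ∃ a : Fin m → QA ℂ, z = ∑ t, algebraMap (QA ℂ) ℂ (a t) * ω t := by
    intro z
    rw [Submodule.mem_span_range_iff_exists_fun]
    constructor
    · rintro ⟨c, rfl⟩
      exact ⟨c, sum_congr rfl fun t _ => Algebra.smul_def _ _⟩
    · rintro ⟨c, rfl⟩
      exact ⟨c, sum_congr rfl fun t _ => Algebra.smul_def _ _⟩
  constructor
  · rintro ⟨w, hw, h⟩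
    refine ⟨w, hw, fun P hP hP0 z => ?_⟩
    exact h P hP.1 (fun γ => (h1 _).mpr (hP.2 γ)) hP0 z
  · rintro ⟨w, hw, h⟩
    refine ⟨w, hw, fun P hP1 hP2 hP0 z => ?_⟩
    exact h P ⟨hP1, fun γ => (h1 _).mp (hP2 γ)⟩ hP0 z

/-- no nonzero relation between the coordinates `v_j`, `j` in `J` -/
def Free (D : ℕ) {m n : ℕ} (ω : Fin m → ℂ) (J : Finset (Fin n)) (v : Fin n → ℂ) : Prop :=
  ∀ P : MvPolynomial (Fin n) ℂ, (∀ i, P.degreeOf i ≤ D) →
    (∀ γ, P.coeff γ ∈ Submodule.span (QA ℂ) (Set.range ω)) → P.vars ⊆ J → MvPolynomial.eval v P = 0 → P = 0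

theorem free_of_flat {κ : Type} [Field κ] [Algebra κ ℂ] {D m n f : ℕ} {ω : Fin m → ℂ} {v : Fin n → ℂ}
    (h : Flat κ D ω f v) : ∃ J : Finset (Fin n), J.card = f ∧ Free D ω J v := by
  classical
  obtain ⟨w, hw, h⟩ := h
  obtain ⟨J, w', hw'W, hw'J, hJc, -⟩ := pivot (Submodule.span κ (Set.range w))
  refine ⟨J, by rw [hJc, finrank_span_eq_card hw, Fintype.card_fin], fun P hP1 hP2 hPJ hP0 => ?_⟩
  choose c hc using fun j => (Submodule.mem_span_range_iff_exists_fun κ).mp (hw'W j)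
  apply MvPolynomial.funext
  intro x
  rw [map_zero]
  have h1 := h P hP1 hP2 hP0 (fun a => ∑ j : J, (x j - v j) * algebraMap κ ℂ (c j a))
  have h2 : (fun i => v i + ∑ a, (∑ j : J, (x j - v j) * algebraMap κ ℂ (c j a)) * algebraMap κ ℂ (w a i)) =
      fun i => v i + ∑ j : J, (x j - v j) * algebraMap κ ℂ (w' j i) := by
    funext i
    congr 1
    simp only [sum_mul]
    rw [sum_comm]
    refine sum_congr rfl (fun j _ => ?_)
    rw [← hc j, Finset.sum_apply, map_sum, mul_sum]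
    refine sum_congr rfl (fun a _ => ?_)
    rw [Pi.smul_apply, smul_eq_mul, map_mul]
    ring
  rw [h2] at h1
  rw [← h1]
  refine MvPolynomial.eval₂Hom_congr' rfl (fun i hi _ => ?_) rfl
  have hiJ := hPJ hi
  have h3 : ∑ j : J, (x j - v j) * algebraMap κ ℂ (w' j i) = x i - v i := by
    rw [Finset.sum_eq_single (⟨i, hiJ⟩ : J)]
    · have := hw'J ⟨i, hiJ⟩ ⟨i, hiJ⟩
      rw [if_pos rfl] at this
      rw [show w' ⟨i, hiJ⟩ i = 1 from this, map_one, mul_one]
    · intro j _ hj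
      have := hw'J j ⟨i, hiJ⟩
      rw [if_neg hj] at this
      rw [show w' j i = 0 from this, map_zero, mul_zero]
    · intro h; exact absurd (mem_univ _) h
  rw [h3]
  ring

/-- many tuples without `e + 1` free coordinates -/
theorem lower3 {s n m D e : ℕ} (he : e ≤ n) (hD : 1 ≤ D) (ω : Fin m → ℂ)
    (h1 : (1 : ℂ) ∈ Submodule.span (QA ℂ) (Set.range ω)) (l : Fin s → ℂ) (M : ℕ) :
    (2 * M + 1) ^ (s * e) ≤ Set.ncard {x : Fin s → Fin n → ℤ | (∀ k i, |x k i| ≤ M) ∧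
      ∀ J : Finset (Fin n), J.card = e + 1 → ¬ Free D ω J (fun i => ∑ k, l k * (x k i : ℂ))} := by
  classical
  set T := {x : Fin s → Fin n → ℤ | (∀ k i, |x k i| ≤ M) ∧
      ∀ J : Finset (Fin n), J.card = e + 1 → ¬ Free D ω J (fun i => ∑ k, l k * (x k i : ℂ))} with hT
  have hTf : T.Finite := by
    have h1 : ((Fintype.piFinset fun _ : Fin s => Fintype.piFinset fun _ : Fin n =>
        Finset.Icc (-(M : ℤ)) M : Finset (Fin s → Fin n → ℤ)) : Set (Fin s → Fin n → ℤ)).Finite :=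
      Finset.finite_toSet _
    refine h1.subset fun A hA => ?_
    rw [Finset.mem_coe, Fintype.mem_piFinset]
    intro i
    rw [Fintype.mem_piFinset]
    intro j
    rw [Finset.mem_Icc, ← abs_le]
    exact hA.1 i j
  set dom : Finset (Fin s → Fin e → ℤ) :=
    Fintype.piFinset (fun _ => Fintype.piFinset (fun _ => Finset.Icc (-(M : ℤ)) M)) with hdom
  have hcard : dom.card = (2 * M + 1) ^ (s * e) := by
    have h3 : ((M : ℤ) + 1 - -(M : ℤ)).toNat = 2 * M + 1 := by omega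
    rw [hdom]
    simp only [Fintype.card_piFinset, prod_const, card_univ, Int.card_Icc, h3, Fintype.card_fin]
    rw [← pow_mul, Nat.mul_comm e s]
  rw [← hcard, Set.ncard_eq_toFinset_card T hTf]
  refine card_le_card_of_injOn (fun m k i => if h : (i : ℕ) < e then m k ⟨i, h⟩ else 0) ?_ ?_
  · intro x hx
    rw [mem_coe, hdom, Fintype.mem_piFinset] at hx
    rw [mem_coe, Set.Finite.mem_toFinset]
    refine ⟨fun k i => ?_, fun J hJ hfree => ?_⟩
    · by_cases h : (i : ℕ) < e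
      · simp only [h, dif_pos]
        exact abs_le.mpr (Finset.mem_Icc.mp (Fintype.mem_piFinset.mp (hx k) ⟨i, h⟩))
      · simp only [h, dif_neg, not_false_eq_true, abs_zero]
        positivity
    · obtain ⟨i, hiJ, hi⟩ : ∃ i ∈ J, ¬ (i : ℕ) < e := by
        by_contra hcon
        push Not at hcon
        have h2 : J.card ≤ (Finset.range e).card := by
          refine card_le_card_of_injOn (fun i : Fin n => (i : ℕ)) (fun i hi => ?_) (fun i _ j _ h => Fin.ext h)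
          rw [mem_coe, Finset.mem_range]
          exact hcon i hi
        rw [hJ, card_range] at h2
        omega
      have h3 := hfree (MvPolynomial.X i) (fun j => ?_) (fun γ => ?_) ?_ ?_
      · exact MvPolynomial.X_ne_zero i h3
      · refine le_trans ?_ hD
        rw [MvPolynomial.degreeOf_X]
        split_ifs <;> omega
      · rw [MvPolynomial.coeff_X']
        split_ifs
        · exact h1
        · exact Submodule.zero_mem _
      · rw [MvPolynomial.vars_X]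
        exact Finset.singleton_subset_iff.mpr hiJ
      · rw [MvPolynomial.eval_X]
        refine sum_eq_zero (fun k _ => ?_)
        simp only [hi, dif_neg, not_false_eq_true, Int.cast_zero, mul_zero]
  · intro x _ x' _ h
    funext k i
    have h2 := congrFun (congrFun h k) ⟨i, by omega⟩
    simp only [i.2, dif_pos] at h2
    exact h2

section

variable {s n m D : ℕ}

/-- **Counting.** -/
theorem count_final3 (s n m D e : ℕ) : ∃ C : ℕ, ∀ l : Fin s → ℂ, (∀ k, l k ∈ Lt) →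
    LinearIndependent (QA ℂ) (Fin.cons 1 l : Fin (s + 1) → ℂ) → ∀ (β : Fin n → ℂ) (ω : Fin m → ℂ) (M : ℕ), 1 ≤ M →
    Set.ncard {x : Fin s → Fin n → ℤ | (∀ k i, |x k i| ≤ M) ∧
      ¬ Flat ℚ D ω (e + 1) (fun i => β i + ∑ k, l k * (x k i : ℂ))} ≤
      C * M ^ (s * e + (n * (n + m * (D + 1) ^ n)) ^ 2) := by
  obtain ⟨K, hK⟩ := count3 ℚ (QA ℂ) ℂ s n m D ((n + m * (D + 1) ^ n) ^ 2) e
  refine ⟨K, fun l hl hli β ω M hM => ?_⟩
  have h1 := hK l (col2_rat hyp_lt (Submodule.subset_span (Or.inl rfl)) l hl hli) β ω M hM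
  have h2 : n * ((n + m * (D + 1) ^ n) ^ 2 * n) = (n * (n + m * (D + 1) ^ n)) ^ 2 := by ring
  rw [h2] at h1
  simp only [flat_iff]
  exact h1

/-- **Dimension.** -/
theorem dim_final3 (s n m D e S : ℕ) (hS : s * e + (n * (n + m * (D + 1) ^ n)) ^ 2 < S) :
    ∃ E : ℕ, ∀ l : Fin s → ℂ, (∀ k, l k ∈ Lt) →
    LinearIndependent (QA ℂ) (Fin.cons 1 l : Fin (s + 1) → ℂ) → ∀ (β : Fin n → ℂ) (ω : Fin m → ℂ)
    (φ : Fin S → Fin s × Fin n → QA ℂ),
    ∃ Δ : MvPolynomial (Fin S) (QA ℂ), Δ ≠ 0 ∧ Δ.totalDegree ≤ E ∧ ∀ b : Fin s × Fin n → QA ℂ,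
      ¬ Flat (QA ℂ) D ω (e + 1) (fun i => β i + ∑ k, l k * (b (k, i) : ℂ)) →
      MvPolynomial.eval (fun q => ∑ x, φ q x * b x) Δ = 0 := by
  have h2 : n * ((n + m * (D + 1) ^ n) ^ 2 * n) = (n * (n + m * (D + 1) ^ n)) ^ 2 := by ring
  obtain ⟨E, hE⟩ := dim_unif3 (QA ℂ) (QA ℂ) ℂ s n m D ((n + m * (D + 1) ^ n) ^ 2) e S (by rw [h2]; exact hS)
  refine ⟨E, fun l hl hli β ω φ => ?_⟩
  obtain ⟨Δ, h3, h4, h5⟩ := hE l (col2_alg hyp_lt (Submodule.subset_span (Or.inl rfl)) l hl hli) β ω φ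
  exact ⟨Δ, h3, h4, fun b hb => h5 b (fun h => hb ((flat_iff ω _ _).mpr h))⟩

end

end Pool.Agent.D0H4.Tr
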